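import Pool.Agent.Lib.Mu14.Move2

/-! The expansion at the second cusp, with the place of a unit coefficient. -/

set_option autoImplicit false

open Matrix Filter Topology
open scoped Real

namespace Pool.Agent.Lib.Mu14.Eff

open Move

/-- Isolating a polynomial by a prime of controlled size. -/
theorem iso (hR : StRoot) (hS : StScl) {n : ℕ} {a : Fin (n + 2) → ℤ} (h : Spl (toR (toQ a))) :
    ∃ C : ℕ, ∀ (t : ℤ) (B : ℕ), t ≠ 0 → ∃ s : ℕ, s.Prime ∧ B < s ∧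
      (s : ℤ) ≤ 2 * B + C * t ^ (2 * (n + 2)) ∧
      ∀ b : Fin (n + 2) → ℤ, Spl (toR (toQ b)) → Sim s a b →
        Qm (comp (toQ b)) = t ^ 2 * Qm (comp (toQ a)) → b = scl t a ∨ b = scl (-t) a := by
  obtain ⟨θ, hθ, ha⟩ := h
  obtain ⟨Q, hQ⟩ : IsZ (Qm (comp (toQ a))) := ⟨Qm (comp a), by
    simp only [Qm, trace, diag, mul_apply, comp, of_apply, toQ]
    push_cast; rfl⟩
  have Q0 : 0 < Q := by
    have h1 : (Q : ℝ) = ∑ i, θ i ^ 2 := by
      rw [← (hR.real ha).1, ← hR.cast, hQ]; simp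
    have h2 : ∃ i, θ i ≠ 0 := by
      by_contra h
      push Not at h
      exact absurd (hθ ((h 0).trans (h 1).symm)) (by simp)
    obtain ⟨i, hi⟩ := h2
    have : (0 : ℝ) < Q := h1 ▸ Finset.sum_pos' (fun _ _ => sq_nonneg _)
      ⟨i, Finset.mem_univ _, by positivity⟩
    exact_mod_cast this
  refine ⟨(2 * (Q + 1 + (2 ^ (n + 2) * (1 + Q) ^ (n + 2) + ∑ i, |a i|))).toNat, fun t B ht => ?_⟩
  set H : ℤ := 2 ^ (n + 2) * (1 + t ^ 2 * Q) ^ (n + 2) + ∑ i, |scl t a i| with hH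
  obtain ⟨s, hp, hs, hs2⟩ := Nat.exists_prime_lt_and_le_two_mul (B + Q.natAbs + H.natAbs + 1)
    (by omega)
  refine ⟨s, hp, by omega, ?_, fun b ⟨η, _, hb⟩ ⟨e, he, hd⟩ hq => ?_⟩
  · have t1 : 1 ≤ |t| := Int.one_le_abs ht
    have t2 : 1 ≤ t ^ 2 := by rw [← sq_abs]; exact one_le_pow₀ t1
    have t3 : 1 ≤ t ^ (2 * (n + 2)) := by rw [pow_mul]; exact one_le_pow₀ t2
    have k1 : (1 + t ^ 2 * Q) ^ (n + 2) ≤ (1 + Q) ^ (n + 2) * t ^ (2 * (n + 2)) := by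
      rw [pow_mul, ← mul_pow]
      exact pow_le_pow_left₀ (by positivity) (by nlinarith) _
    have k2 : ∑ i, |scl t a i| ≤ (∑ i, |a i|) * t ^ (2 * (n + 2)) := by
      rw [Finset.sum_mul]
      refine Finset.sum_le_sum fun i _ => ?_
      rw [scl, abs_mul, abs_pow, mul_comm, ← (even_two_mul (n + 2)).pow_abs]
      exact mul_le_mul_of_nonneg_left (pow_le_pow_right₀ t1 (by omega)) (abs_nonneg _)
    have k3 : 0 ≤ ∑ i, |a i| := Finset.sum_nonneg fun _ _ => abs_nonneg _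
    have k4 : 0 ≤ H := add_nonneg (by positivity) (Finset.sum_nonneg fun _ _ => abs_nonneg _)
    have k5 : (s : ℤ) ≤ 2 * (B + Q + H + 1) := by omega
    have k6 := mul_le_mul_of_nonneg_left k1 (by positivity : (0 : ℤ) ≤ 2 ^ (n + 2))
    rw [Int.toNat_of_nonneg (by positivity)]
    nlinarith
  have hp' := Nat.prime_iff_prime_int.1 hp
  have e0 : (e : ℚ) ≠ 0 := by
    rintro h
    rw [Int.cast_eq_zero.1 h, isCoprime_zero_left] at he
    exact hp'.not_isUnit he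
  have s0 : (s : ℚ) ≠ 0 := by exact_mod_cast hp.ne_zero
  obtain ⟨z, hz⟩ := hS.cong s (scl e a) b hd
  have e1 : toQ (scl e a) = scl (e : ℚ) (toQ a) := by funext i; simp [toQ, scl]
  rw [e1, hS.qm _ e0, hq, hQ, Int.cast_natCast, div_eq_iff s0] at hz
  have h1 : (s : ℤ) ∣ (e - t) * (e - -t) * Q :=
    ⟨-z, by exact_mod_cast (by linear_combination -hz : ((e : ℚ) - t) * (e - -t) * Q = s * -z)⟩
  have h2 := (hp'.dvd_or_dvd h1).resolve_right fun h => by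
    have := Int.le_of_dvd Q0 h
    omega
  have bb : ∀ i, |b i| ≤ 2 ^ (n + 2) * (1 + t ^ 2 * Q) ^ (n + 2) := by
    intro i
    have k1 := (hR.real hb).2.2 i
    have k2 : ∑ j, η j ^ 2 = (t : ℝ) ^ 2 * Q := by
      rw [← (hR.real hb).1, ← hR.cast, hq, hQ]; simp
    have k3 : (0 : ℝ) ≤ (t : ℝ) ^ 2 * Q := by positivity
    rw [k2] at k1
    have : |(b i : ℝ)| ≤ 2 ^ (n + 2) * (1 + (t : ℝ) ^ 2 * Q) ^ (n + 2) :=
      le_trans (by simpa [toR, toQ] using k1) (mul_le_mul_of_nonneg_left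
        (pow_le_pow_right₀ (by linarith) (Nat.sub_le (n + 2) i)) (by positivity))
    exact_mod_cast this
  have key : ∀ u : ℤ, |u| = |t| → (s : ℤ) ∣ e - u → b = scl u a := by
    intro u hu h
    funext i
    have d1 : (s : ℤ) ∣ b i - scl u a i := by
      have := dvd_add (hd i) ((h.trans (sub_dvd_pow_sub_pow e u (n + 2 - i.val))).mul_right (a i))
      simpa [scl, sub_mul] using this
    have d2 : |scl u a i| ≤ ∑ i, |scl t a i| := by
      refine le_trans (le_of_eq ?_) (Finset.single_le_sum (f := fun i => |scl t a i|)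
        (fun _ _ => abs_nonneg _) (Finset.mem_univ i))
      simp only [scl, abs_mul, abs_pow, hu]
    have d3 := (abs_sub (b i) (scl u a i)).trans (add_le_add (bb i) d2)
    exact sub_eq_zero.1 (Int.eq_zero_of_abs_lt_dvd d1 (by omega))
  exact (hp'.dvd_or_dvd h2).imp (key t rfl) (key (-t) (abs_neg t))

/-- The expansion at the second cusp is integral and primitive. -/
lemma coef (hB : StBlk) (hM : StMod) (hW : StWC) (hm : StFmem) (hq : StQsW) (hS : StScl)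
    (hU : StUnit) (hT : StTy) {p n k l r j m s D : ℕ} {a : Fin (n + 2) → ℤ}
    {C : Set (Fin (n + 2) → ℤ)} {O : ValuationSubring ℂ} (hP : Par p (n + 2) k l) (ha : EisZ l a)
    (hr : r.Prime) (rp : r ≠ p) (rl : r ≠ l) (hrm : r.Coprime (l ^ 2 * m)) (hs : s ∣ m)
    (hC : CongS (r ^ (j + 1)) C) (hO : O.valuation p < 1)
    (iso : ∀ b : Fin (n + 2) → ℤ, Spl (toR (toQ b)) → Sim s a b →
      Qm (comp (toQ b)) = ((r : ℤ) ^ j : ℤ) ^ 2 * Qm (comp (toQ a)) →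
        b = scl ((r : ℤ) ^ j) a ∨ b = scl (-(r : ℤ) ^ j) a)
    {u : ℂ} (hu : O.valuation u = 1) (hz : ∀ α : ℤ, ¬(r : ℤ) ∣ α →
      O.valuation (zW k l (fun x L => stab ((r : ℚ) ^ j • x) L *
        FM (WC C) ((α / r : ℚ) • x) L) (toQ a) - u) < 1)
    {W : Mx (n + 2) → Lt (n + 2) → ℂ} (tf : TFx D W) (nil : Nil l W) (pD : ¬p ∣ D) {ρ : ℚ} {α : ℤ}
    (hα : ¬(r : ℤ) ∣ α) (hWe : ∀ x L, W x L = er (ρ * Qm x) *
      WC (C1 l m a) (((r ^ (j + 1) : ℕ) : ℚ) • x) L * FM (WC C) ((α : ℚ) • x) L) :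
    ∃ B, QS (fun τ => FW k l W (2 * ((r ^ (j + 1)) ^ 2 : ℕ) * τ)) B ∧
      (∀ N, O.valuation (B N) ≤ 1) ∧ ∃ N : ℕ, ((r : ℤ) ^ j : ℤ) ^ 2 * Qm (comp (toQ a)) = N ∧
        O.valuation (B N) = 1 := by
  classical
  have hp := hP.hp
  have hl := hP.hl
  have r0 : (r : ℚ) ≠ 0 := by exact_mod_cast hr.ne_zero
  have D0 : 0 < r ^ (j + 1) := pow_pos hr.pos _
  have D1 : ((r ^ (j + 1) : ℕ) : ℚ) ≠ 0 := by positivity
  have nd : ∀ {q : ℕ}, q.Prime → q ≠ p → ¬p ∣ q := fun hq h h' =>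
    h ((Nat.prime_dvd_prime_iff_eq hp hq).1 h').symm
  have inv : ∀ {q : ℕ}, ¬p ∣ q → (q : ℂ)⁻¹ ∈ O.toSubring := fun h =>
    O.mem_of_valuation_le_one _ (by rw [map_inv₀, hU.nat p _ O hp hO h, inv_one])
  have erO : ∀ q, er q ∈ O.toSubring := fun q => O.mem_of_valuation_le_one _ (hU.er O q).le
  have wne : ∀ {x L}, W x L ≠ 0 → IsLat L ∧ EndL L (((r ^ (j + 1) : ℕ) : ℚ) • x) ∧
      ∃ b ∈ C1 l m a, (((r ^ (j + 1) : ℕ) : ℚ) • x).charpoly = pol (toQ b) := fun {x L} h =>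
    by_contra fun k => h (by rw [hWe, WC, if_neg k, mul_zero, zero_mul])
  have hWO : ∀ x L, W x L ∈ O.toSubring := fun x L => by
    by_cases h : W x L = 0
    · rw [h]; exact zero_mem _
    rw [hWe, WC, if_pos (wne h), mul_one]
    refine mul_mem (erO _) (hm _ _ C _ L _ D0 hC ?_
      (inv fun h => nd hr rp (hp.dvd_of_dvd_pow h)) erO)
    rw [smul_comm]
    exact (wne h).2.1.smul (IsZ.int α)
  have hzO : ∀ a', zW k l W a' ∈ O := fun a' => by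
    obtain ⟨y, hy⟩ := Submodule.mem_one.1 (hM.mem (n + 1) k l D W hP.kk hl hP.hs tf nil O.toSubring
      1 (inv (nd hl hP.lp)) (by
        have := inv (q := l - 1) fun h => hP.l1 ((Nat.modEq_iff_dvd' hl.one_le).2 h).symm
        rwa [Nat.cast_pred hl.pos] at this) (inv pD)
      (fun x L => Submodule.mem_one.2 ⟨⟨_, hWO x L⟩, rfl⟩) a')
    exact hy ▸ y.2
  have K1 : ∀ a', zW k l W a' ≠ 0 → ∃ b ∈ C1 l m a, scl ((r ^ (j + 1) : ℕ) : ℚ) a' = toQ b ∧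
      Qm (comp (toQ b)) = ((r ^ (j + 1)) ^ 2 : ℕ) * Qm (comp a') := fun a' h => by
    obtain ⟨L, hL⟩ := (zW_ne h).2
    obtain ⟨b, hb, e⟩ := (wne hL).2.2
    have e' := hB.pol_inj ((hB.scl_chp _ (hB.chp a')).symm.trans e)
    exact ⟨b, hb, e', by rw [← e', hS.qm _ D1, Nat.cast_pow _ 2]⟩
  obtain ⟨B, hQ, hBN⟩ := hq (n + 1) k l D ((r ^ (j + 1)) ^ 2) W hP.kk hl hP.hs tf nil (pow_pos D0 2)
    fun a' h => by
      obtain ⟨b, -, -, e⟩ := K1 a' h
      exact e ▸ hW.qm b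
  refine ⟨B, hQ, fun N => ?_, ?_⟩
  · obtain ⟨S, -, e⟩ := hBN N
    rw [e, O.valuation_le_one_iff]
    exact sum_mem fun a' _ => hzO a'
  let κ : ℂ := (((r : ℚ)⁻¹ ^ ((k - 1) * ((n + 2) * (n + 2 - 1) / 2)) : ℚ) : ℂ) *
    er (ρ * ((r : ℚ)⁻¹ ^ 2 * Qm (comp (toQ a))))
  let z : ℤ → ℂ := fun α => zW k l (fun x L => stab ((r : ℚ) ^ j • x) L *
    FM (WC C) ((α / r : ℚ) • x) L) (toQ a)
  have hκ : O.valuation κ = 1 := by
    simp only [κ, map_mul, hU.er, Rat.cast_pow, Rat.cast_inv, Rat.cast_natCast, map_pow, map_inv₀,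
      hU.nat p r O hp hO (nd hr rp), inv_one, one_pow, one_mul]
  have sq : ∀ {ε : ℤ}, ε = 1 ∨ ε = -1 → ((ε : ℚ) / r) ^ 2 = (r : ℚ)⁻¹ ^ 2 := by
    rintro _ (rfl | rfl) <;> simp [neg_div]
  have ne0 : ∀ {ε : ℤ}, ε = 1 ∨ ε = -1 → (ε : ℚ) / r ≠ 0 := by
    rintro _ (rfl | rfl) <;> simp [r0]
  have val : ∀ {ε : ℤ}, ε = 1 ∨ ε = -1 → zW k l W (scl ((ε : ℚ) / r) (toQ a)) = κ * z (ε * α) :=
    fun {ε} hε => by
      have : Fact l.Prime := ⟨hl⟩
      have h1 : |(ε : ℚ) / r| = (r : ℚ)⁻¹ := by rcases hε with rfl | rfl <;> simp [abs_div]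
      have h2 : padicValRat l ((ε : ℚ) / r) = 0 := by
        have : padicValRat l (r : ℚ)⁻¹ = 0 := by
          rw [padicValRat.inv, padicValRat.of_nat, padicValNat.eq_zero_of_not_dvd
            fun h => rl ((Nat.prime_dvd_prime_iff_eq hl hr).1 h).symm]
          simp
        rcases hε with rfl | rfl <;> simpa [neg_div] using this
      have h3 : IsCoprime (ε * (r : ℤ) ^ j) (l ^ 2 * m : ℕ) := by
        have := (Nat.isCoprime_iff_coprime.2 hrm).pow_left (m := j)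
        rcases hε with rfl | rfl
        · rwa [one_mul]
        · rwa [neg_one_mul, IsCoprime.neg_left_iff]
      rw [hS.zw k l (toQ a) (by have := hP.kk.2; omega) hl tf (ne0 hε) h2, h1, mul_assoc]
      refine congrArg _ (zW_congr k l fun L => ?_)
      have h4 := wc_stab hB hε ((C1_scl hT a h3 a).2
        ⟨ha, 1, isCoprime_one_left, fun i => by simp [scl_one]⟩) L
      rw [hWe, qm_smul, sq hε, smul_smul, smul_smul, mul_assoc,
        show ((r ^ (j + 1) : ℕ) : ℚ) * (ε / r) = (ε * (r : ℤ) ^ j : ℤ) by push_cast; field_simp; ring,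
        h4, show (α : ℚ) * (ε / r) = (ε * α : ℤ) / r by push_cast; ring]
      norm_cast
  obtain ⟨v1, v2⟩ := val_sum (κ := κ) (by simpa using hU.nat p 2 O hp hO (nd Nat.prime_two hP.odd.symm))
    hu hκ (hz (1 * α) (by simpa using hα)) (hz (-1 * α) (by simpa using hα))
  obtain ⟨v3, -⟩ := val_sum (κ := κ) (by simpa using hU.nat p 2 O hp hO (nd Nat.prime_two hP.odd.symm))
    hu hκ (hz (-1 * α) (by simpa using hα)) (hz (1 * α) (by simpa using hα))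
  replace v1 := (congrArg _ (val (Or.inl rfl))).trans v1
  replace v3 := (congrArg _ (val (Or.inr rfl))).trans v3
  have n1 := O.valuation.ne_zero_iff.1 (v1 ▸ one_ne_zero)
  have n3 := O.valuation.ne_zero_iff.1 (v3 ▸ one_ne_zero)
  have qm : ∀ {ε : ℤ}, ε = 1 ∨ ε = -1 → (((r ^ (j + 1)) ^ 2 : ℕ) : ℚ) *
      Qm (comp (scl ((ε : ℚ) / r) (toQ a))) = ((r : ℤ) ^ j : ℤ) ^ 2 * Qm (comp (toQ a)) :=
    fun hε => by
      rw [hS.qm _ (ne0 hε), sq hε]
      push_cast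
      field_simp
      ring
  obtain ⟨N, hN⟩ : ∃ N : ℕ, ((r : ℤ) ^ j : ℤ) ^ 2 * Qm (comp (toQ a)) = N := by
    obtain ⟨_, _, h⟩ := (hM.gro (n + 1) k l D W hP.kk hl hP.hs tf nil).2
    have h0 := ((h 1 one_pos).2.2 _).1 n1
    obtain ⟨y, hy⟩ := ((IsZ.int ((r : ℤ) ^ j)).pow 2).mul (hW.qm a)
    lift y to ℕ using (by
      rw [← Int.cast_nonneg_iff (R := ℚ), ← hy, ← qm (Or.inl rfl)]
      positivity)
    exact ⟨y, hy⟩
  obtain ⟨S, hSm, e⟩ := hBN N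
  have hSe : S = {scl (((1 : ℤ) : ℚ) / r) (toQ a), scl (((-1 : ℤ) : ℚ) / r) (toQ a)} := by
    ext a'
    rw [hSm, Finset.mem_insert, Finset.mem_singleton]
    refine ⟨fun ⟨h1, h2⟩ => ?_, ?_⟩
    · obtain ⟨b, hb, e1, e2⟩ := K1 a' h1
      have e3 : a' = scl ((r ^ (j + 1) : ℕ) : ℚ)⁻¹ (toQ b) := by
        rw [← e1, scl_scl, inv_mul_cancel₀ D1, scl_one]
      refine (iso b (e1 ▸ (hS.spl a' D1).2 (zW_ne h1).1) (sim_mono hb.2 hs)
        (by rw [e2, h2, hN])).imp (fun h => ?_) fun h => ?_ <;>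
      · rw [e3, h, toQ_scl, scl_scl]
        congr 1
        push_cast
        field_simp
        ring
    · rintro (rfl | rfl)
      exacts [⟨n1, (qm (Or.inl rfl)).trans hN⟩, ⟨n3, (qm (Or.inr rfl)).trans hN⟩]
  refine ⟨N, hN, ?_⟩
  rw [e, hSe]
  by_cases h : scl (((1 : ℤ) : ℚ) / r) (toQ a) = scl (((-1 : ℤ) : ℚ) / r) (toQ a)
  · rw [← h, Finset.pair_eq_singleton, Finset.sum_singleton, v1]
  · rw [Finset.sum_pair h, val (Or.inl rfl), val (Or.inr rfl), v2]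

end Pool.Agent.Lib.Mu14.Eff
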