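import Pool.Agent.Lib.Mu14.Irr

/-! Discriminants and counting. -/

set_option autoImplicit false

open NumberField Polynomial Finset Filter

namespace Pool.Agent.Lib.Mu14.Eff

section
variable {K : Type*} [Field K] [NumberField K]

lemma dvd_discr {l m : ℕ} (hl : l.Prime) {g : ℤ[X]} (hg : ¬(l : ℤ) ∣ g.coeff 0) (hm : 2 ≤ m)
    {x : 𝓞 K} (hx : x ^ m + l * aeval x g = 0) : l ∣ (discr K).natAbs := by
  obtain ⟨P, hP, h⟩ := IRR.exists_over K hl
  have hp := hP.isPrime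
  have hl' : Prime (l : ℤ) := Nat.prime_iff_prime_int.mp hl
  obtain ⟨-, -, h3⟩ := IRR.root_facts hl hP h hg hx
  have h5 : (l : 𝓞 K) ∈ P ^ 2 := Ideal.pow_le_pow_right hm h3
  have : (Ideal.span {(l : ℤ)}).IsMaximal :=
    PrincipalIdealRing.isMaximal_of_irreducible hl'.irreducible
  have h6 := pow_sub_one_dvd_differentIdeal ℤ (p := Ideal.span {(l : ℤ)}) P 2
    (by simpa using hl.ne_zero) (by simpa [Ideal.map_span, Ideal.dvd_iff_le] using h5)
  have h1 : (((discr K).natAbs : ℕ) : 𝓞 K) ∈ P := by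
    rw [← absNorm_differentIdeal K (𝓞 K)]
    exact Ideal.dvd_iff_le.mp (by simpa using h6) (Ideal.absNorm_mem _)
  by_contra hd
  exact IRR.intCast_notMem hl hP.ne_top h (c := ((discr K).natAbs : ℕ))
    (fun k => hd (Int.natCast_dvd_natCast.1 k)) (by rwa [Int.cast_natCast])

lemma discr_le (pb : PowerBasis ℚ K) (hi : IsIntegral ℤ pb.gen) {Q : ℝ}
    (h : ∀ σ : K →ₐ[ℚ] ℂ, ‖σ pb.gen‖ ^ 2 ≤ Q) :
    ((discr K).natAbs : ℝ) ≤ (4 * Q) ^ (pb.dim * (pb.dim - 1) / 2) := by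
  classical
  let e := (integralBasis K).indexEquiv pb.basis
  let P : Matrix (Fin pb.dim) (Fin pb.dim) ℤ := fun i j =>
    (RingOfIntegers.basis K).repr (⟨pb.gen, hi⟩ ^ j.val) (e.symm i)
  have h1 : ((integralBasis K).reindex e).toMatrix pb.basis = P.map (Int.castRingHom ℚ) := by
    ext i j
    rw [Module.Basis.toMatrix_apply, Module.Basis.repr_reindex_apply, Matrix.map_apply,
      pb.basis_eq_pow]
    exact integralBasis_repr_apply K (⟨pb.gen, hi⟩ ^ j.val) _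
  have h2 := Algebra.discr_of_matrix_vecMul ((integralBasis K).reindex e)
    (((integralBasis K).reindex e).toMatrix pb.basis)
  rw [Module.Basis.toMatrix_map_vecMul, h1, Module.Basis.coe_reindex, Algebra.discr_reindex,
    ← coe_discr, ← RingHom.mapMatrix_apply, ← RingHom.map_det, eq_intCast] at h2
  have h3 : P.det ≠ 0 := fun k => Algebra.discr_not_zero_of_basis ℚ pb.basis (by rw [h2, k]; simp)
  have e' : Fin pb.dim ≃ (K →ₐ[ℚ] ℂ) :=
    Fintype.equivOfCardEq (by rw [Fintype.card_fin, AlgHom.card, pb.finrank])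
  have h4 := congrArg norm (Algebra.discr_powerBasis_eq_prod ℚ ℂ pb e')
  have h5 : (1 : ℝ) ≤ |(P.det : ℝ)| := by exact_mod_cast Int.one_le_abs h3
  have h6 : ∑ i : Fin pb.dim, (Ioi i).card = pb.dim * (pb.dim - 1) / 2 := by
    simp only [Fin.card_Ioi]
    rw [Fin.sum_univ_eq_sum_range (fun i => pb.dim - 1 - i), sum_range_reflect (fun i => i),
      sum_range_id]
  generalize P.det = d at h2 h5
  rw [h2, eq_ratCast, norm_prod] at h4
  push_cast at h4
  rw [norm_mul, norm_pow, Complex.norm_intCast, Complex.norm_intCast] at h4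
  rw [← h6, ← prod_pow_eq_pow_sum, Nat.cast_natAbs, Int.cast_abs]
  refine (le_mul_of_one_le_left (abs_nonneg _) (one_le_pow₀ (n := 2) h5)).trans (h4.trans_le
    (prod_le_prod (fun _ _ => norm_nonneg _) fun i _ => ?_))
  rw [norm_prod, ← prod_const]
  refine prod_le_prod (fun _ _ => norm_nonneg _) fun j _ => ?_
  rw [norm_pow]
  refine (pow_le_pow_left₀ (norm_nonneg _) (norm_sub_le _ _) 2).trans ?_
  nlinarith [h (e' i), h (e' j), sq_nonneg (‖e' j pb.gen‖ - ‖e' i pb.gen‖)]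

end

lemma card_pf {d X : ℕ} (h0 : d ≠ 0) (h : d ≤ X) : (d.primeFactors.card : ℝ) ≤ 2 * Real.log X := by
  have h2 : 2 ^ d.primeFactors.card ≤ X := ((pow_card_le_prod _ _ 2 fun q hq =>
    (Nat.prime_of_mem_primeFactors hq).two_le).trans
      (Nat.le_of_dvd (Nat.pos_of_ne_zero h0) (Nat.prod_primeFactors_dvd d))).trans h
  have h3 := Real.log_le_log (by positivity) (Nat.cast_le (α := ℝ).2 h2)
  rw [Nat.cast_pow, Real.log_pow, Nat.cast_ofNat] at h3
  nlinarith [Real.log_two_gt_d9, Nat.cast_nonneg (α := ℝ) d.primeFactors.card]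

lemma count {α : Type*} (S : ℕ → Set α) (hS : ∀ X, (S X).Finite) (D : α → ℕ) (R : ℕ → Prop)
    [DecidablePred R] {c C A B : ℕ} (hA0 : A ≠ 0) (hA : A < B)
    (h1 : ∀ᶠ x : ℕ in atTop, (x : ℝ) ≤ c * Real.log x * ((Icc 1 x).filter R).card)
    (h2 : ∀ q X, R q → C * q ^ A ≤ X → q.Prime ∧ ∃ E ∈ S X, q ∣ D E ∧ D E ≠ 0 ∧ D E ≤ X) :
    ∀ᶠ X : ℕ in atTop, X ≤ (S X).ncard ^ B := by
  classical
  have h3 : ∀ k : ℕ, ∀ d : ℝ, ∀ᶠ x : ℕ in atTop, d * Real.log x ^ k ≤ x := fun k d => by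
    have := (tendsto_natCast_atTop_atTop (R := ℝ)).eventually
      ((Real.isLittleO_pow_log_id_atTop (n := k)).const_mul_left d).eventuallyLE
    filter_upwards [this] with x hx
    exact (le_abs_self _).trans (hx.trans_eq (by simp))
  have h4 := (Real.tendsto_log_atTop.comp tendsto_natCast_atTop_atTop).eventually_ge_atTop
    (Real.log ((C + 1) * 2 ^ A))
  obtain ⟨Y₀, hY₀⟩ := eventually_atTop.1 (h1.and ((h3 (2 * B)
    ((C + 1) * 2 ^ A * (2 * (c + 1) * (A + 1)) ^ B)).and (h4.and (eventually_ge_atTop 2))))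
  filter_upwards [eventually_ge_atTop ((C + 1) * Y₀ ^ A), eventually_gt_atTop 0] with X hX hX0
  have hex : ∃ Y, X < (C + 1) * (Y + 1) ^ A := ⟨X, (Nat.lt_succ_self X).trans_le
    ((Nat.le_self_pow hA0 _).trans (Nat.le_mul_of_pos_left _ (by omega)))⟩
  obtain ⟨Y, k1, k2, k3⟩ : ∃ Y, X < (C + 1) * (Y + 1) ^ A ∧ Y₀ ≤ Y ∧ (C + 1) * Y ^ A ≤ X := by
    refine ⟨Nat.find hex, Nat.find_spec hex, not_lt.1 fun h => (Nat.find_spec hex).not_ge
      (le_trans (by gcongr; exact h) hX), ?_⟩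
    rcases h : Nat.find hex with _ | y
    · simp [hA0]
    · exact not_lt.1 (Nat.find_min hex (by omega))
  obtain ⟨a1, a2, a3, a4⟩ := hY₀ Y k2
  have b0 : (1 : ℝ) < Y := by exact_mod_cast a4
  have b1 : 0 < Real.log Y := Real.log_pos b0
  have b2 : (X : ℝ) ≤ (C + 1) * 2 ^ A * Y ^ A := by
    have : X ≤ (C + 1) * (2 * Y) ^ A := k1.le.trans (by gcongr; omega)
    rw [mul_assoc, ← mul_pow]
    exact_mod_cast this
  have b3 : Real.log X ≤ (A + 1) * Real.log Y := by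
    refine (Real.log_le_log (Nat.cast_pos.2 hX0) b2).trans ?_
    rw [Real.log_mul (by positivity) (by positivity), Real.log_pow]
    exact (add_le_add_left a3 _).trans_eq (by simp only [Function.comp]; ring)
  have b4 : (((Icc 1 Y).filter R).card : ℝ) ≤ (S X).ncard * (2 * Real.log X) := by
    let T := (hS X).toFinset.filter fun E => D E ≠ 0 ∧ D E ≤ X
    have c1 : (Icc 1 Y).filter R ⊆ T.biUnion fun E => (D E).primeFactors := fun q hq => by
      obtain ⟨hq, hR⟩ := mem_filter.1 hq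
      obtain ⟨d1, E, d2, d3, d4, d5⟩ := h2 q X hR (le_trans (by
        have := (mem_Icc.1 hq).2
        gcongr
        omega) k3)
      exact mem_biUnion.2 ⟨E, mem_filter.2 ⟨(hS X).mem_toFinset.2 d2, d4, d5⟩,
        Nat.mem_primeFactors.2 ⟨d1, d3, d4⟩⟩
    refine (Nat.cast_le.2 ((card_le_card c1).trans card_biUnion_le)).trans ?_
    rw [Nat.cast_sum, Set.ncard_eq_toFinset_card _ (hS X)]
    refine (sum_le_card_nsmul _ _ _ fun E hE =>
      card_pf (mem_filter.1 hE).2.1 (mem_filter.1 hE).2.2).trans ?_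
    rw [nsmul_eq_mul]
    exact mul_le_mul_of_nonneg_right (Nat.cast_le.2 (card_filter_le _ _))
      (mul_nonneg zero_le_two (Real.log_natCast_nonneg X))
  generalize (S X).ncard = N at b4 ⊢
  have b5 : (Y : ℝ) ≤ 2 * (c + 1) * (A + 1) * Real.log Y ^ 2 * N :=
    a1.trans ((mul_le_mul (mul_le_mul_of_nonneg_right (le_add_of_nonneg_right zero_le_one) b1.le)
      (b4.trans (show _ ≤ N * (2 * ((A + 1) * Real.log Y)) by gcongr)) (Nat.cast_nonneg _)
      (by positivity)).trans_eq (by ring))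
  have b6 := pow_le_pow_left₀ (by positivity) b5 B
  rw [mul_assoc, pow_mul, ← mul_pow] at a2
  rw [mul_pow] at b6
  have b7 : 0 < (2 * ((c : ℝ) + 1) * (A + 1) * Real.log Y ^ 2) ^ B := by positivity
  generalize (2 * ((c : ℝ) + 1) * (A + 1) * Real.log Y ^ 2) ^ B = K at a2 b6 b7
  rw [← Nat.cast_le (α := ℝ), Nat.cast_pow, ← mul_le_mul_iff_right₀ b7]
  calc K * X ≤ K * ((C + 1) * 2 ^ A * Y ^ A) := by gcongr
    _ = (C + 1) * 2 ^ A * K * Y ^ A := by ring
    _ ≤ Y * Y ^ A := by gcongr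
    _ ≤ Y ^ B := by rw [← pow_succ']; exact pow_le_pow_right₀ b0.le hA
    _ ≤ _ := b6

end Pool.Agent.Lib.Mu14.Eff
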