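import Pool.Agent.Lib.Mu14.Inert

/-! Many inert primes. -/

set_option autoImplicit false

namespace Pool.Agent.Lib.Mu14.Eff

section
open Filter Topology NumberField Ideal Finset Pool.Agent.Lib.helper22.PIT
open scoped Pointwise

variable {L : Type*} [Field L] [NumberField L] {G : Type*} [Group G] [Finite G]
  [MulSemiringAction G L] [IsGaloisGroup G ℚ L]

lemma card_over {p : ℕ} (hp : p.Prime) {T : Finset (Ideal (𝓞 L))}
    (hT : ∀ Q ∈ T, Q.IsPrime ∧ (p : 𝓞 L) ∈ Q) : T.card ≤ Module.finrank ℤ (𝓞 L) := by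
  have hdvd := Finset.prod_primes_dvd (span {(p : 𝓞 L)})
    (fun P hP => Ideal.prime_of_isPrime (ne_bot_of_prime_mem hp (hT P hP).2) (hT P hP).1)
    (fun P hP => Ideal.dvd_span_singleton.mpr (hT P hP).2)
  have h2 := map_dvd absNorm hdvd
  rw [absNorm_span_natCast, map_prod] at h2
  refine (Nat.pow_le_pow_iff_right hp.one_lt).1 ((pow_card_le_prod _ _ p fun Q hQ => ?_).trans
    (Nat.le_of_dvd (pow_pos hp.pos _) h2))
  obtain ⟨h3, h4⟩ := hT Q hQ
  have := h3.isMaximal (ne_bot_of_prime_mem hp h4)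
  obtain ⟨q, f, hf, hq1, hq2, hq3⟩ := exists_prime_and_absNorm_eq_pow Q
  rw [hq3, prime_eq_of_mem h3.ne_top hq2 hp hq1 h4]
  exact Nat.le_self_pow hf.ne' _

/-- Frobenius density theorem, lower bound form -/
theorem many_frob (g : G) (B : ℕ) (R : ℕ → Prop) [DecidablePred R]
    (hR : ∀ p : ℕ, p.Prime → B < p → ∀ Q : Ideal (𝓞 L), Q.IsPrime → (p : 𝓞 L) ∈ Q → ∀ τ : G,
      Subgroup.zpowers τ = Subgroup.zpowers g → (∀ y : 𝓞 L, τ • y - y ^ p ∈ Q) → R p) :
    ∃ c : ℕ, ∀ᶠ x : ℕ in atTop, (x : ℝ) ≤ c * Real.log x * ((Icc 1 x).filter R).card := by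
  classical
  obtain ⟨N₁, hN₁⟩ := exists_unram_bound L G
  have hσ : ∀ (p : ℕ) (Q : Ideal (𝓞 L)), ∃ σ : G, p.Prime → Q.IsPrime → (p : 𝓞 L) ∈ Q →
      ∀ y : 𝓞 L, σ • y - y ^ p ∈ Q := fun p Q => by
    by_cases h : p.Prime ∧ Q.IsPrime ∧ (p : 𝓞 L) ∈ Q
    · have := h.2.1
      obtain ⟨σ, hσ⟩ := exists_frob G h.1 Q h.2.2
      exact ⟨σ, fun _ _ _ => hσ.1⟩
    · exact ⟨1, fun h1 h2 h3 => absurd ⟨h1, h2, h3⟩ h⟩
  choose σ hσ using hσ
  have hT : ∀ p : ℕ, ∃ T : Finset (Ideal (𝓞 L)), p.Prime →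
      ∀ Q, Q ∈ T ↔ Q.IsPrime ∧ (p : 𝓞 L) ∈ Q := fun p => by
    by_cases hp : p.Prime
    · have hne : span {(p : 𝓞 L)} ≠ ⊥ := by
        rw [Ne, span_singleton_eq_bot]; exact_mod_cast hp.ne_zero
      refine ⟨(UniqueFactorizationMonoid.normalizedFactors (span {(p : 𝓞 L)})).toFinset,
        fun _ Q => ?_⟩
      rw [Multiset.mem_toFinset, Ideal.mem_normalizedFactors_iff hne, span_singleton_le_iff_mem]
    · exact ⟨∅, fun h => absurd h hp⟩
  choose T hT using hT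
  set N := max B N₁
  let b : ℕ → ℕ → ℝ := fun e x => ∑ p ∈ Icc 1 x with p.Prime ∧ N < p,
    (∑ Q ∈ T p with σ p Q ∈ Subgroup.zpowers g ∧ orderOf (σ p Q) = e, e : ℕ) * Real.log p
  have h0 : ∀ c : ℝ, Tendsto (fun x : ℕ => c / x) atTop (𝓝 0) := tendsto_const_div_atTop_nhds_zero_nat
  have h1 : ∀ m, m ∣ orderOf g → Tendsto (fun x : ℕ => (∑ e ∈ m.divisors, b e x) / x) atTop (𝓝 m) := by
    intro m hm
    have hm0 : m ≠ 0 := ne_zero_of_dvd_ne_zero (orderOf_pos g).ne' hm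
    let H := Subgroup.zpowers (g ^ (orderOf g / m))
    have hH : Nat.card H = m := by rw [Nat.card_zpowers, orderOf_pow_orderOf_div (orderOf_pos g).ne' hm]
    have hH' : ∀ τ, τ ∈ H ↔ τ ∈ Subgroup.zpowers g ∧ orderOf τ ∣ m := fun τ => by
      refine ⟨fun h => ⟨Subgroup.zpowers_le.mpr (Subgroup.npow_mem_zpowers _ _) h,
        hH ▸ Subgroup.orderOf_dvd_natCard _ h⟩, fun ⟨h, h'⟩ => ?_⟩
      obtain ⟨k, rfl⟩ := (mem_powers_iff_mem_zpowers.mpr h : _ ∈ Submonoid.powers g)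
      rw [orderOf_dvd_iff_pow_eq_one, ← pow_mul, ← orderOf_dvd_iff_pow_eq_one] at h'
      obtain ⟨c, rfl⟩ : orderOf g / m ∣ k := by
        rwa [Nat.div_dvd_iff_dvd_mul hm hm0.bot_lt, mul_comm]
      simpa only [pow_mul] using Subgroup.npow_mem_zpowers _ c
    set F : IntermediateField ℚ L := FixedPoints.intermediateField H
    have h2 := ((tendsto_deg_one F).sub (h0 (∑ p ∈ Icc 1 N with p.Prime,
      ((idN F p).card : ℝ) * Real.log p))).const_mul (m : ℝ)
    rw [sub_zero, mul_one] at h2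
    refine h2.congr' ?_
    filter_upwards [eventually_ge_atTop N] with x hx
    rw [← sub_div, mul_div_assoc', ← sum_filter_add_sum_filter_not _ (N < ·), filter_filter,
      filter_filter, show (Icc 1 x).filter (fun p => p.Prime ∧ ¬ N < p) = (Icc 1 N).filter Nat.Prime
        by ext; simp only [mem_filter, mem_Icc]; grind, add_sub_cancel_right, mul_sum, sum_comm]
    congr 1
    refine sum_congr rfl fun p hp => ?_
    obtain ⟨-, hp, hp'⟩ := mem_filter.mp hp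
    rw [← sum_mul, ← mul_assoc, ← Nat.cast_mul, ← hH, ← sum_order_eq hp
      (hN₁ p hp ((le_max_right _ _).trans_lt hp')) (T p) (hT p hp) (σ p) (fun Q hQ =>
        hσ p Q hp ((hT p hp Q).mp hQ).1 ((hT p hp Q).mp hQ).2) H, ← Nat.cast_sum, hH,
      ← sum_fiberwise_of_maps_to (t := m.divisors) (g := fun Q => orderOf (σ p Q)) fun Q hQ =>
        Nat.mem_divisors.mpr ⟨((hH' _).mp (mem_filter.mp hQ).2).2, hm0⟩]
    congr 2
    refine sum_congr rfl fun e he => ?_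
    rw [filter_filter]
    refine sum_congr (filter_congr fun Q _ => ?_) fun Q hQ => (mem_filter.mp hQ).2.2
    rw [hH']
    exact ⟨fun h => ⟨h.1.1, h.2⟩, fun h => ⟨⟨h.1, h.2 ▸ Nat.dvd_of_mem_divisors he⟩, h.2⟩⟩
  have h2 : ∀ m, m ∣ orderOf g → Tendsto (fun x : ℕ => b m x / x) atTop (𝓝 m.totient) := by
    intro m
    induction m using Nat.strong_induction_on with
    | _ m ih =>
    intro hm
    have hm0 : m ≠ 0 := ne_zero_of_dvd_ne_zero (orderOf_pos g).ne' hm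
    have h3 := (h1 m hm).sub (tendsto_finsetSum m.properDivisors fun e he =>
      ih e (Nat.mem_properDivisors.mp he).2 ((Nat.mem_properDivisors.mp he).1.trans hm))
    have h4 := congrArg (Nat.cast : ℕ → ℝ) (Nat.sum_totient m)
    rw [← Nat.cons_self_properDivisors hm0, sum_cons, Nat.cast_add, Nat.cast_sum] at h4
    rw [← h4, add_sub_cancel_right] at h3
    refine h3.congr fun x => ?_
    rw [← Nat.cons_self_properDivisors hm0, sum_cons, add_div, sum_div m.properDivisors,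
      add_sub_cancel_right]
  have h3 : ∀ x : ℕ, b (orderOf g) x ≤ (Module.finrank ℤ (𝓞 L) * orderOf g : ℕ) * Real.log x *
      ((Icc 1 x).filter R).card := fun x => by
    have h0 : 0 ≤ ((Module.finrank ℤ (𝓞 L) * orderOf g : ℕ) : ℝ) * Real.log x :=
      mul_nonneg (Nat.cast_nonneg _) (Real.log_natCast_nonneg x)
    rw [mul_comm _ (Nat.cast (card _)), ← nsmul_eq_mul, ← sum_const, sum_filter]
    refine (sum_le_sum fun p hp => ?_).trans (sum_le_sum_of_subset_of_nonneg (filter_subset _ _)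
      fun p _ _ => by split_ifs <;> [exact h0; rfl])
    obtain ⟨hx, hp, hp'⟩ := mem_filter.mp hp
    split_ifs with h
    · refine mul_le_mul (Nat.cast_le.2 ?_) (Real.log_le_log (Nat.cast_pos.2 hp.pos)
        (Nat.cast_le.2 (mem_Icc.1 hx).2)) (Real.log_natCast_nonneg p) (Nat.cast_nonneg _)
      rw [sum_const, smul_eq_mul]
      exact Nat.mul_le_mul_right _ (card_over hp fun Q hQ => (hT p hp Q).1 (mem_filter.1 hQ).1)
    · rw [sum_eq_zero fun Q hQ => (h ?_).elim, Nat.cast_zero, zero_mul]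
      obtain ⟨hQ, h4, h5⟩ := mem_filter.mp hQ
      obtain ⟨h6, h7⟩ := (hT p hp Q).mp hQ
      exact hR p hp ((le_max_left _ _).trans_lt hp') Q h6 h7 (σ p Q) (Subgroup.eq_of_le_of_card_ge
        (Subgroup.zpowers_le.mpr h4) (by simp [Nat.card_zpowers, h5])) (hσ p Q hp h6 h7)
  have h4 : (1 / 2 : ℝ) < (orderOf g).totient := lt_of_lt_of_le (by norm_num)
    (Nat.one_le_cast.2 (Nat.totient_pos.mpr (orderOf_pos g)))
  refine ⟨2 * (Module.finrank ℤ (𝓞 L) * orderOf g), ?_⟩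
  filter_upwards [(h2 _ dvd_rfl).eventually (lt_mem_nhds h4), eventually_gt_atTop 0] with x hx hx0
  rw [lt_div_iff₀ (Nat.cast_pos.2 hx0)] at hx
  have := h3 x
  push_cast at this ⊢
  linarith

end

open Filter NumberField IsDedekindDomain Polynomial Finset WithZero Pool.Agent.Lib.helper22.PIT
open Pool.Agent.Lib.helper22.Val Pool.Agent.Lib.MP_4e64b4_nt
open scoped Pointwise

open Classical in
theorem many_inert_aux {f : ℤ[X]} (hf : f.Monic) (hi : Irreducible (f.map (algebraMap ℤ ℚ)))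
    {l m : ℕ} (hl : l.Prime) (h1 : f.map (Int.castRingHom (ZMod l)) = X ^ f.natDegree)
    (h2 : ¬ (l : ℤ) ^ 2 ∣ f.coeff 0) (hn : ¬ l ∣ f.natDegree) (hm : ¬ l ∣ m) (B : ℕ)
    (L : Type) [Field L] [Algebra ℚ L]
    [IsSplittingField ℚ L (f.map (algebraMap ℤ ℚ) * cyclotomic m ℚ)] :
    ∃ c : ℕ, ∀ᶠ x : ℕ in atTop, (x : ℝ) ≤ c * Real.log x * ((Icc 1 x).filter fun q => q.Prime ∧
      B < q ∧ q ≡ 1 [MOD m] ∧ Irreducible (f.map (Int.castRingHom (ZMod q)))).card := by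
  have : CharZero L := algebraRat.charZero L
  obtain rfl : ‹Algebra ℚ L› = DivisionRing.toRatAlgebra := Subsingleton.elim _ _
  have := IsSplittingField.finiteDimensional L (f.map (algebraMap ℤ ℚ) * cyclotomic m ℚ)
  have : NumberField L := NumberField.of_module_finite ℚ L
  have := Normal.of_isSplittingField (E := L) (f.map (algebraMap ℤ ℚ) * cyclotomic m ℚ)
  have : IsGalois ℚ L := {}
  have hm0 : m ≠ 0 := fun e => hm (e ▸ dvd_zero _)
  have := NeZero.mk hm0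
  have hs := IsSplittingField.splits L (f.map (algebraMap ℤ ℚ) * cyclotomic m ℚ)
  have h0 := ((hf.map (algebraMap ℤ ℚ)).mul (cyclotomic.monic m ℚ)).map (algebraMap ℚ L)
  rw [Polynomial.map_mul] at hs h0
  obtain ⟨hc, -, r, h3, h4, hG⟩ := exists_roots (L := L) hf hi
    (hs.of_dvd h0.ne_zero (dvd_mul_right _ _))
  obtain ⟨z, hz⟩ := (hs.of_dvd h0.ne_zero (dvd_mul_left _ _)).exists_eval_eq_zero
    (by rw [degree_map]; exact (degree_cyclotomic_pos m ℚ hm0.bot_lt).ne')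
  rw [map_cyclotomic] at hz
  have hz := isRoot_cyclotomic_iff.mp hz
  have : Nonempty ((f.map (algebraMap ℤ ℚ)).rootSet L) := Fintype.card_pos_iff.mp (by
    rw [hc, ← hf.natDegree_map (algebraMap ℤ ℚ)]; exact hi.natDegree_pos)
  obtain ⟨w, hw⟩ := exists_over L hl
  obtain ⟨σ, hσ, ht⟩ := exists_cycle hG h4 hl hw (hc ▸ h1) h2 (hc ▸ hn)
  have := w.isPrime
  have h5 : σ z = z := inertia_fix (p := m) (k := 1) (fun e => ((val_natCast_lt_iff w m).mpr e).ne
    (val_nat_eq_one hw ((Nat.Prime.coprime_iff_not_dvd hl).mpr hm))) hσ hm0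
    (by rw [pow_one, hz.pow_eq_one])
  obtain ⟨N, hN⟩ := exists_bound_of_ne_zero (y := (m : 𝓞 L) * ∏ x ∈ univ.offDiag, (r x.1 - r x.2))
    (mul_ne_zero (Nat.cast_ne_zero.mpr hm0) (prod_ne_zero_iff.mpr fun x hx e =>
      (mem_offDiag.mp hx).2.2 (Subtype.ext (by rw [← h3, ← h3, sub_eq_zero.mp e]))))
  refine many_frob (L := L) σ (max B N) _ fun q hq hB Q hQ hqQ τ hτ hF => ?_
  have := Fact.mk hq
  have := hQ.isMaximal (ne_bot_of_prime_mem hq hqQ)
  have h6 := hN q hq ((le_max_right _ _).trans_lt hB) Q hQ.ne_top hqQ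
  refine ⟨hq, (le_max_left _ _).trans_lt hB, ?_, irreducible_of_frob hf hG h4 hqQ hF
    (fun i j => ?_) fun i j e => by_contra fun e' => h6 (Q.mul_mem_left _ (Q.mem_of_dvd
      (dvd_prod_of_mem _ (a := (i, j)) (by simpa using e')) e))⟩
  · have h7 : τ • hz.toInteger = hz.toInteger := RingOfIntegers.ext
      ((Subgroup.zpowers_le (H := MulAction.stabilizer _ z)).mpr h5 (hτ ▸ Subgroup.mem_zpowers τ))
    have h8 := hF hz.toInteger
    have h9 := hz.toInteger_isPrimitiveRoot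
    obtain ⟨q, rfl⟩ := Nat.exists_eq_add_one_of_ne_zero hq.ne_zero
    rw [h7, pow_succ, ← one_sub_mul, hQ.mul_mem_iff_mem_or_mem] at h8
    have h10 := eq_one_of_sub_mem (fun e => h6 (Q.mul_mem_right _ e)) (x := hz.toInteger ^ q)
      (by rw [← pow_mul, mul_comm, pow_mul, h9.pow_eq_one, one_pow]) (by
        simpa using neg_mem (h8.resolve_right fun e => hQ.ne_top
          (Q.eq_top_of_isUnit_mem e (h9.isUnit hm0))))
    simpa using (Nat.modEq_zero_iff_dvd.mpr (h9.dvd_of_pow_eq_one _ h10)).add_right 1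
  · obtain ⟨k, rfl⟩ := ht i j
    obtain ⟨a, ha⟩ := mem_powers_iff_mem_zpowers.mpr (hτ.ge (Subgroup.npow_mem_zpowers σ k))
    exact ⟨a, congrArg (· • i) ha⟩

open Classical in
/-- an Eisenstein polynomial at a tame prime is irreducible modulo many primes
congruent to `1` modulo `m` -/
theorem many_inert {f : ℤ[X]} (hf : f.Monic) (hi : Irreducible (f.map (algebraMap ℤ ℚ)))
    {l m : ℕ} (hl : l.Prime) (h1 : f.map (Int.castRingHom (ZMod l)) = X ^ f.natDegree)
    (h2 : ¬ (l : ℤ) ^ 2 ∣ f.coeff 0) (hn : ¬ l ∣ f.natDegree) (hm : ¬ l ∣ m) (B : ℕ) :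
    ∃ c : ℕ, ∀ᶠ x : ℕ in atTop, (x : ℝ) ≤ c * Real.log x * ((Icc 1 x).filter fun q => q.Prime ∧
      B < q ∧ q ≡ 1 [MOD m] ∧ Irreducible (f.map (Int.castRingHom (ZMod q)))).card :=
  @many_inert_aux f hf hi l m hl h1 h2 hn hm B _ _ _ (IsSplittingField.splittingField _)

end Pool.Agent.Lib.Mu14.Eff
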