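import Pool.Agent.Lib.Mu14.QE

/-! Exponents of the auxiliary form, with a bound for the order of the pole at infinity. -/

set_option autoImplicit false

namespace Pool.Agent.Lib.Mu14.Eff

open QE

/-- Bound for the order of the pole. -/
def bd (M w N₁ : ℕ) : ℕ := 4 * (N₁ + w + 1) * M ^ 5

/-- Exponents of the auxiliary form. -/
def StQE' : Prop :=
  ∀ c₀ M' w N₁ : ℕ, 0 < c₀ → 1 < M' → c₀.Coprime M' → Even w →
    ∃ (r : ℕ → ℤ) (α β : ℕ), (4 * α + 6 * β + 12 * ∑ d ∈ (c₀ * M').divisors, r d : ℤ) = 2 - w ∧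
      (∀ c ∈ (c₀ * M').divisors, c ≠ c₀ * M' → c ≠ c₀ →
        0 < ∑ d ∈ (c₀ * M').divisors, (r d : ℚ) * (d.gcd c) ^ 2 / d) ∧
      ∑ d ∈ (c₀ * M').divisors, (r d : ℚ) * (d.gcd c₀) ^ 2 / d = -(N₁ : ℚ) / M' ∧
      -(∑ d ∈ (c₀ * M').divisors, r d * d : ℤ) ≤ bd (c₀ * M') w N₁

/-- An exponent vector whose order vanishes at all cusps other than infinity. -/
lemma infty {M : ℕ} (hM : M ≠ 0) : ∃ (W : ℤ) (o : ℕ → ℚ), Rl M W o ∧ 0 < W ∧ o M ≤ M ^ 3 ∧
    ∀ c, c ∣ M → c ≠ M → o c = 0 := by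
  have hpos : ∀ S ⊆ M.primeFactors, 0 < M / ∏ q ∈ S, q := fun S hS =>
    Nat.div_pos (Nat.le_of_dvd (Nat.pos_of_ne_zero hM) (prod_dvd hS))
      (Nat.pos_of_dvd_of_pos (prod_dvd hS) (Nat.pos_of_ne_zero hM))
  refine ⟨_, _, sum M.primeFactors.powerset fun S hS =>
    (delta hM (Nat.div_dvd_of_dvd (prod_dvd (Finset.mem_powerset.1 hS)))).smul
      ((-1) ^ S.card * (M / ∏ q ∈ S, q : ℕ)), ?_, ?_, fun c hc hne => ?_⟩
  · have h1 : (0 : ℚ) < M * ∏ q ∈ M.primeFactors, (1 + -(q : ℚ)⁻¹) := by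
      refine mul_pos (by positivity) (Finset.prod_pos fun q hq => ?_)
      have : (1 : ℚ) < q := by exact_mod_cast (Nat.prime_of_mem_primeFactors hq).one_lt
      linarith [inv_lt_one_of_one_lt₀ this]
    rw [Finset.prod_one_add, Finset.mul_sum] at h1
    rw [← Int.cast_pos (R := ℚ), Int.cast_sum]
    refine h1.trans_eq (Finset.sum_congr rfl fun S hS => ?_)
    have hd := prod_dvd (Finset.mem_powerset.1 hS)
    rw [Finset.prod_neg, Finset.prod_inv_distrib, mul_one, Int.cast_mul, Int.cast_natCast,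
      Nat.cast_div hd (by exact_mod_cast ne_zero_of_dvd_ne_zero hM hd)]
    push_cast
    ring
  · have h2 : 2 ^ M.primeFactors.card ≤ M := (Finset.pow_card_le_prod _ _ 2 fun q hq =>
      (Nat.prime_of_mem_primeFactors hq).two_le).trans
        (Nat.le_of_dvd (Nat.pos_of_ne_zero hM) (Nat.prod_primeFactors_dvd M))
    refine (Finset.sum_le_card_nsmul _ _ ((M : ℚ) ^ 2) fun S hS => ?_).trans ?_
    · have p1 : ((M / ∏ q ∈ S, q : ℕ) : ℚ) ≠ 0 := by
        exact_mod_cast (hpos S (Finset.mem_powerset.1 hS)).ne'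
      have p2 : (((M / ∏ q ∈ S, q).gcd M : ℕ) : ℚ) ^ 2 ≤ (M : ℚ) ^ 2 := by
        exact_mod_cast Nat.pow_le_pow_left (Nat.gcd_le_right _ (Nat.pos_of_ne_zero hM)) 2
      rw [Int.cast_mul, Int.cast_natCast, mul_assoc, mul_div_cancel₀ _ p1]
      rcases neg_one_pow_eq_or ℤ S.card with h | h <;> rw [h] <;> push_cast <;>
        nlinarith [sq_nonneg (((M / ∏ q ∈ S, q).gcd M : ℕ) : ℚ)]
    · rw [Finset.card_powerset, nsmul_eq_mul, pow_succ' (M : ℚ) 2]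
      exact mul_le_mul_of_nonneg_right (by exact_mod_cast h2) (by positivity)
  · obtain ⟨e, he⟩ := hc
    obtain ⟨q, hq, e', rfl⟩ := Nat.exists_prime_and_dvd (n := e) (by
      rintro rfl
      exact hne (by rw [he, mul_one]))
    have hqM : q ∈ M.primeFactors :=
      Nat.mem_primeFactors.2 ⟨hq, ⟨c * e', by rw [he]; ring⟩, hM⟩
    have hsub : ∀ S ∈ (M.primeFactors.erase q).powerset, S ⊆ M.primeFactors ∧ q ∉ S :=
      fun S hS => ⟨(Finset.mem_powerset.1 hS).trans (Finset.erase_subset _ _),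
        fun h => Finset.notMem_erase q _ (Finset.mem_powerset.1 hS h)⟩
    rw [← Finset.insert_erase hqM, Finset.sum_powerset_insert (Finset.notMem_erase _ _),
      ← Finset.sum_add_distrib]
    refine Finset.sum_eq_zero fun S hS => ?_
    obtain ⟨h1, h2⟩ := hsub S hS
    have h3 : insert q S ⊆ M.primeFactors := Finset.insert_subset hqM h1
    have p1 : ((M / ∏ q ∈ S, q : ℕ) : ℚ) ≠ 0 := by exact_mod_cast (hpos S h1).ne'
    have p2 : ((M / ∏ q ∈ insert q S, q : ℕ) : ℚ) ≠ 0 := by exact_mod_cast (hpos _ h3).ne'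
    have hg : (M / ∏ q ∈ S, q).gcd c = (M / ∏ q ∈ insert q S, q).gcd c := by
      obtain ⟨m, hm⟩ := prod_dvd h3
      have hS0 : 0 < ∏ q ∈ insert q S, q := Nat.pos_of_dvd_of_pos ⟨m, hm⟩ (Nat.pos_of_ne_zero hM)
      have e2 : M / ∏ q ∈ insert q S, q = m := Nat.div_eq_of_eq_mul_right hS0 hm
      rw [Finset.prod_insert h2] at hm hS0
      have e1 : M / ∏ q ∈ S, q = m * q :=
        Nat.div_eq_of_eq_mul_right (Nat.pos_of_mul_pos_left hS0) (by rw [hm]; ring)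
      have hcop : q.Coprime (∏ q ∈ S, q) := Nat.Coprime.prod_right fun q' hq' =>
        (Nat.coprime_primes hq (Nat.prime_of_mem_primeFactors (h1 hq'))).2 fun h => h2 (h ▸ hq')
      have hc : c ∣ m * ∏ q ∈ S, q :=
        ⟨e', Nat.eq_of_mul_eq_mul_left hq.pos (by rw [← mul_assoc, mul_right_comm, ← hm, he]; ring)⟩
      rw [e1, e2]
      refine Nat.dvd_antisymm (Nat.dvd_gcd ?_ (Nat.gcd_dvd_right _ _))
        (Nat.gcd_dvd_gcd_of_dvd_left _ (dvd_mul_right _ _))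
      have := Nat.dvd_gcd (Nat.gcd_dvd_left (m * q) c) ((Nat.gcd_dvd_right _ _).trans hc)
      rwa [Nat.gcd_mul_left, hcop, mul_one] at this
    rw [hg, Finset.card_insert_of_notMem h2, Int.cast_mul, Int.cast_mul, Int.cast_natCast,
      Int.cast_natCast, mul_assoc, mul_assoc, mul_div_cancel₀ _ p1, mul_div_cancel₀ _ p2]
    push_cast
    ring

theorem stQE : StQE' := by
  intro c₀ M' w N₁ hc hM' hcop hw
  have hM : c₀ * M' ≠ 0 := by positivity
  obtain ⟨W, o, hR, hW, hoM, ho⟩ := infty hM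
  have d1 := delta hM (one_dvd _)
  have d2 := delta hM (dvd_mul_left M' c₀)
  have d3 := delta hM (dvd_mul_right c₀ M')
  set s : ℕ := N₁ * M' * c₀ + 1 with hs
  have hh := (d2.smul (-N₁)).add
    ((((d2.smul M').add (d1.smul (-1))).add ((d1.smul c₀).add (d3.smul (-1)))).smul s)
  have hX : (-(N₁ : ℤ) * 1 + s * (M' * 1 + -1 * 1 + (c₀ * 1 + -1 * 1))).natAbs + w + 1 ≤
      3 * (N₁ + w + 1) * (c₀ * M') ^ 2 := by
    have a1 : M' ≤ c₀ * M' := Nat.le_mul_of_pos_left _ hc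
    have a2 : c₀ ≤ c₀ * M' := Nat.le_mul_of_pos_right _ (by omega)
    have a3 : s ≤ (N₁ + 1) * (c₀ * M') := by rw [hs]; nlinarith
    have a4 : s * (M' + c₀) ≤ (N₁ + 1) * (c₀ * M') * (2 * (c₀ * M')) :=
      Nat.mul_le_mul a3 (by omega)
    have a5 : (-(N₁ : ℤ) * 1 + s * (M' * 1 + -1 * 1 + (c₀ * 1 + -1 * 1))).natAbs ≤
        N₁ + s * (M' + c₀) := by
      have b1 : (0 : ℤ) ≤ s * (M' * 1 + -1 * 1 + (c₀ * 1 + -1 * 1)) :=
        mul_nonneg (by positivity) (by omega)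
      have b2 : (s : ℤ) * (M' * 1 + -1 * 1 + (c₀ * 1 + -1 * 1)) ≤ s * (M' + c₀) :=
        mul_le_mul_of_nonneg_left (by omega) (by positivity)
      zify
      rw [abs_le]
      constructor <;> nlinarith
    have a6 : N₁ + w + 1 ≤ (N₁ + w + 1) * (c₀ * M') ^ 2 := Nat.le_mul_of_pos_right _ (by positivity)
    nlinarith [Nat.zero_le (w * (c₀ * M') ^ 2)]
  generalize -(N₁ : ℤ) * 1 + s * (M' * 1 + -1 * 1 + (c₀ * 1 + -1 * 1)) = X at hh hX
  obtain ⟨r, h1, h2⟩ := hh.add (hR.smul (-(X.natAbs + w + 1 : ℕ)))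
  have hY : (X.natAbs + w + 1 : ℕ) ≤ ((X.natAbs + w + 1 : ℕ) : ℤ) * W :=
    le_mul_of_one_le_right (by positivity) hW
  rw [neg_mul] at h1
  beta_reduce at h2
  generalize ((X.natAbs + w + 1 : ℕ) : ℤ) * W = Y at h1 hY
  obtain ⟨w', hw'⟩ := hw
  have hq0 : (0 : ℚ) < c₀ := by exact_mod_cast hc
  have hq1 : (0 : ℚ) < M' := by positivity
  obtain ⟨α, β, hab⟩ : ∃ α β : ℕ, (4 * α + 6 * β + 12 * (X + -Y) : ℤ) = 2 - w := by
    rcases Nat.even_or_odd' w' with ⟨t, ht | ht⟩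
    · exact ⟨(3 * (Y - X) - t - 1).toNat, 1, by omega⟩
    · exact ⟨(3 * (Y - X) - t).toNat, 0, by omega⟩
  refine ⟨r, α, β, by rw [h1, hab], fun c hcd hne hne' => ?_, ?_, ?_⟩
  · have hd := Nat.dvd_of_mem_divisors hcd
    rw [h2, ho c hd hne]
    have g1 : 1 ≤ M'.gcd c := Nat.gcd_pos_of_pos_left _ (by omega)
    have g2 : M'.gcd c ≤ M' := Nat.gcd_le_left _ (by omega)
    have g3 : c₀.gcd c ≤ c₀ := Nat.gcd_le_left _ hc
    have g4 : c₀.gcd c ^ 2 + c₀ + 1 ≤ c₀ * M'.gcd c ^ 2 + c₀ ^ 2 := by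
      have a1 := Nat.pow_le_pow_left g3 2
      rcases g1.eq_or_lt with e | e
      · have : c₀.gcd c < c₀ := lt_of_le_of_ne g3 fun e' => hne' (Nat.dvd_antisymm
          (Nat.Coprime.dvd_of_dvd_mul_right (Nat.Coprime.symm e.symm) hd)
          (e' ▸ Nat.gcd_dvd_right c₀ c))
        have := Nat.pow_lt_pow_left this two_ne_zero
        rw [← e]
        omega
      · have : c₀ * 4 ≤ c₀ * M'.gcd c ^ 2 := Nat.mul_le_mul_left c₀ (Nat.pow_le_pow_left e 2)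
        omega
    have q2 : ((M'.gcd c : ℕ) : ℚ) ^ 2 / M' ≤ M' := by
      rw [div_le_iff₀ hq1, ← sq]
      exact_mod_cast Nat.pow_le_pow_left g2 2
    have q4 : (1 : ℚ) / c₀ ≤ ((M'.gcd c : ℕ) : ℚ) ^ 2 - 1 + (c₀ - ((c₀.gcd c : ℕ) : ℚ) ^ 2 / c₀) := by
      have : ((c₀.gcd c : ℕ) : ℚ) ^ 2 + c₀ + 1 ≤ c₀ * ((M'.gcd c : ℕ) : ℚ) ^ 2 + c₀ ^ 2 := by
        exact_mod_cast g4
      rw [div_le_iff₀ hq0, add_mul, sub_mul _ (_ / _), div_mul_cancel₀ _ hq0.ne']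
      linarith
    have q5 : (N₁ : ℚ) * M' < s * (1 / c₀) := by
      rw [mul_one_div, lt_div_iff₀ hq0, hs]
      push_cast
      linarith
    have q6 := mul_le_mul_of_nonneg_left q4 (Nat.cast_nonneg (α := ℚ) s)
    have q7 := mul_le_mul_of_nonneg_left q2 (Nat.cast_nonneg (α := ℚ) N₁)
    simp only [Nat.gcd_one_left, Int.cast_neg, Int.cast_natCast, Int.cast_one, Nat.cast_one,
      mul_div_cancel₀ _ hq1.ne']
    linarith
  · rw [h2, ho c₀ (dvd_mul_right _ _) (by nlinarith), Nat.gcd_self, hcop.symm]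
    simp only [Nat.gcd_one_left, Int.cast_neg, Int.cast_natCast, Int.cast_one, Nat.cast_one]
    field_simp
    ring
  · have e1 : ((∑ d ∈ (c₀ * M').divisors, r d * d : ℤ) : ℚ) =
        ∑ d ∈ (c₀ * M').divisors, (r d : ℚ) * (d.gcd (c₀ * M')) ^ 2 / d := by
      rw [Int.cast_sum]
      refine Finset.sum_congr rfl fun d hd => ?_
      have : (d : ℚ) ≠ 0 := by exact_mod_cast (Nat.pos_of_mem_divisors hd).ne'
      rw [Nat.gcd_eq_left (Nat.dvd_of_mem_divisors hd)]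
      push_cast
      field_simp
    rw [← Int.cast_le (R := ℚ), Int.cast_neg, e1, h2, Nat.gcd_eq_left (dvd_mul_left M' c₀),
      Nat.gcd_eq_left (dvd_mul_right c₀ M')]
    have b1 : ((X.natAbs + w + 1 : ℕ) : ℚ) * o (c₀ * M') ≤
        (3 * (N₁ + w + 1) * (c₀ * M') ^ 2 : ℕ) * ((c₀ * M' : ℕ) : ℚ) ^ 3 :=
      (mul_le_mul_of_nonneg_left hoM (by positivity)).trans
        (mul_le_mul_of_nonneg_right (by exact_mod_cast hX) (by positivity))
    have b2 : N₁ * M' ≤ (N₁ + w + 1) * (c₀ * M') ^ 5 := Nat.mul_le_mul (by omega)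
      ((Nat.le_mul_of_pos_left _ hc).trans (Nat.le_self_pow (by norm_num) _))
    have b3 : (N₁ : ℚ) * M' ≤ (N₁ + w + 1) * (c₀ * M') ^ 5 := by exact_mod_cast b2
    have b4 : (0 : ℚ) ≤ s * (M' * M' - 1) := mul_nonneg (by positivity) (by
      have : (1 : ℚ) ≤ M' := by exact_mod_cast hM'.le
      nlinarith)
    have b5 : (M' : ℚ) ^ 2 / M' = M' := by field_simp
    have b6 : (c₀ : ℚ) ^ 2 / c₀ = c₀ := by field_simp
    simp only [Nat.gcd_one_left, Int.cast_neg, Int.cast_natCast, Int.cast_one, Nat.cast_one, b5, b6,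
      bd]
    push_cast at b1 ⊢
    nlinarith

end Pool.Agent.Lib.Mu14.Eff
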