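import Pool.Agent.Lib.Mu14.QC
import Pool.Agent.Lib.Mu14.QP
import Pool.Agent.Lib.Mu45.QB

/-! The effective `q`-expansion principle. -/

set_option autoImplicit false

open Filter Topology
open scoped Real

namespace Pool.Agent.Lib.Mu14.Eff

open QC

/-- The basic identity between the coefficients at two cusps. -/
lemma core (hA : StQA) (hB : StQB') {c₀ M' w : ℕ} (N₁ : ℕ) (h0 : 0 < c₀) (h1 : 1 < M')
    (hc : c₀.Coprime M') (hw : Even w) : ∃ (N₀ j : ℕ) (g H : ℕ → ℤ), N₀ ≤ bd (c₀ * M') w N₁ + 1 ∧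
    ∀ (F : ℂ → ℂ) (A : ℕ → ℂ), QS F A → Law (c₀ * M') w F → ∀ a b c e : ℤ, a * e - b * c = 1 →
      (c₀ : ℤ) ∣ c → IsCoprime c M' → (M' : ℤ) ∣ e → ∀ B : ℕ → ℂ,
      (∀ τ : ℂ, 0 < τ.im → HasSum (fun N : ℕ => B N * ee (N * (τ / M'))) (sl w F a b c e τ)) →
      B N₁ = (∑ N ∈ Finset.range N₀, g N * A N) / M' ^ j +
        ∑ m ∈ Finset.range N₁, H m * B m := by
  obtain ⟨g, N₀, G, hbd, hg, hlaw, hG, hoth, H, u, u', j, t, hH, hu, hcusp⟩ :=
    hB c₀ M' w N₁ h0 h1 hc hw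
  refine ⟨N₀ + 1, j + 1, fun N => -(M' ^ t * u' * G (N₀ - N)), fun m => -H (N₁ - m),
    Nat.succ_le_succ hbd, ?_⟩
  intro F A hF hL a b c e hd hc0 hcop he B hBs
  have hM : 0 < c₀ * M' := Nat.mul_pos h0 (by omega)
  have hLA := lawA_of hF hw hL
  have hL2 : LawA (c₀ * M') 2 fun τ => F τ * g τ := by
    intro a b c e hd hM τ hτ
    have h2 := hlaw a b c e hd hM τ hτ
    simp only
    rw [hLA a b c e hd hM τ hτ]
    linear_combination F τ * h2
  have hres := hA.res c₀ M' (fun τ => F τ * g τ) h0 h1 hc ((hA.diff hF).mul hg) hL2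
    (fun a b c e hd h2 h3 => by
      obtain ⟨C, δ, hδ, hb⟩ := hoth a b c e hd h2 h3
      exact other_cusp hA hM hF hg hL2 hd hδ hb) a b c e hd hc0 hcop
  have i1 := int_coeff (G := fun τ => F τ * (g τ * ee (N₀ * τ)))
    (b := fun N => ∑ m ∈ Finset.range (N + 1), A m * (G (N - m) : ℂ)) 1 (c₀ * M') one_pos N₀
    (fun τ hτ => by
      simpa using hasSum_mul (B := fun N => (G N : ℂ)) (hF.sum τ hτ) (hG τ hτ))
  have i2 := int_coeff (G := fun τ => sl w F a b c e τ *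
      (g (mob a b c e τ) * (c * τ + e) ^ w / (c * τ + e) ^ 2 * ee (N₁ * τ / M')))
    (b := fun N => ∑ m ∈ Finset.range (N + 1), B m * ((u : ℂ) / M' ^ t * H (N - m))) M' c₀
    (by omega) N₁ (fun τ hτ => hasSum_mul (B := fun N => (u : ℂ) / M' ^ t * H N) (hBs τ hτ)
      (by simpa only [mul_div_assoc] using hcusp a b c e hd hc0 he τ hτ))
  have e1 : (fun x : ℝ => F (x + Complex.I) * (g (x + Complex.I) * ee (N₀ * (x + Complex.I))) *
      (ee (N₀ * ((x + Complex.I) / (1 : ℕ))))⁻¹) =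
      fun x : ℝ => F (x + Complex.I) * g (x + Complex.I) := by
    funext x
    have := ee_ne_zero (N₀ * (x + Complex.I))
    rw [Nat.cast_one, div_one, ← mul_assoc, mul_assoc _ (ee _), mul_inv_cancel₀ this, mul_one]
  have e2 : (fun x : ℝ => sl w F a b c e (x + Complex.I) *
      (g (mob a b c e (x + Complex.I)) * (c * (x + Complex.I) + e) ^ w /
        (c * (x + Complex.I) + e) ^ 2 * ee (N₁ * (x + Complex.I) / M')) *
      (ee (N₁ * ((x + Complex.I) / M')))⁻¹) =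
      fun x : ℝ => F (mob a b c e (x + Complex.I)) * g (mob a b c e (x + Complex.I)) /
        (c * (x + Complex.I) + e) ^ 2 := by
    funext x
    have h2 := sl_mul (w := w) F g hd (τ := x + Complex.I) (by simp)
    have h3 := ee_ne_zero (N₁ * ((x + Complex.I) / M'))
    rw [mul_div_assoc (N₁ : ℂ), ← mul_assoc, mul_assoc _ (ee _), mul_inv_cancel₀ h3, mul_one, ← h2]
    rfl
  rw [e1, mul_one] at i1
  rw [e2] at i2
  rw [i1, i2] at hres
  have hM0 : ((c₀ * M' : ℕ) : ℂ) ≠ 0 := by exact_mod_cast hM.ne'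
  have hM' : (M' : ℂ) ≠ 0 := by exact_mod_cast (by omega : M' ≠ 0)
  have hu' : (u : ℂ) * u' = M' ^ j := by exact_mod_cast hu
  set S : ℂ := ∑ m ∈ Finset.range (N₀ + 1), A m * (G (N₀ - m) : ℂ) with hS
  set T : ℂ := ∑ m ∈ Finset.range N₁, B m * (H (N₁ - m) : ℂ) with hT
  have h4 : ∑ m ∈ Finset.range (N₁ + 1), B m * ((u : ℂ) / M' ^ t * H (N₁ - m)) =
      (u : ℂ) / M' ^ t * (T + B N₁) := by
    rw [Finset.sum_range_succ, Nat.sub_self, hH, hT, mul_add, Finset.mul_sum]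
    congr 1
    · exact Finset.sum_congr rfl fun m _ => by ring
    · push_cast; ring
  rw [h4] at hres
  have h5 : S + M' * ((u : ℂ) / M' ^ t * (T + B N₁)) = 0 := by
    refine mul_left_cancel₀ hM0 ?_
    linear_combination hres
  have h6 : ∑ N ∈ Finset.range (N₀ + 1), ((-(M' ^ t * u' * G (N₀ - N)) : ℤ) : ℂ) * A N =
      -(M' ^ t * u' * S) := by
    rw [hS, Finset.mul_sum, ← Finset.sum_neg_distrib]
    exact Finset.sum_congr rfl fun m _ => by push_cast; ring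
  have h7 : ∑ m ∈ Finset.range N₁, ((-H (N₁ - m) : ℤ) : ℂ) * B m = -T := by
    rw [hT, ← Finset.sum_neg_distrib]
    exact Finset.sum_congr rfl fun m _ => by push_cast; ring
  rw [h6, h7]
  have h8 : (M' : ℂ) ^ t * S + M' * u * (T + B N₁) = 0 := by
    have : (M' : ℂ) ^ t ≠ 0 := pow_ne_zero _ hM'
    field_simp at h5
    linear_combination h5
  have h9 : (M' : ℂ) ^ (j + 1) ≠ 0 := pow_ne_zero _ hM'
  rw [← sub_eq_iff_eq_add, eq_div_iff h9, pow_succ, ← hu']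
  linear_combination (u' : ℂ) * h8

lemma bd_mono (M w : ℕ) {N N' : ℕ} (h : N ≤ N') : bd M w N ≤ bd M w N' := by
  unfold bd
  gcongr

theorem q1 (hA : StQA) (hB : StQB') {c₀ M' w : ℕ} (h0 : 0 < c₀) (h1 : 1 < M')
    (hc : c₀.Coprime M') (hw : Even w) {F : ℂ → ℂ} {A : ℕ → ℂ} (hF : QS F A)
    (hL : Law (c₀ * M') w F) {a b c e : ℤ} (hd : a * e - b * c = 1) (hc0 : (c₀ : ℤ) ∣ c)
    (hcop : IsCoprime c M') : ∃ B : ℕ → ℂ, (∀ τ : ℂ, 0 < τ.im →
      HasSum (fun N : ℕ => B N * ee (N * τ / M')) (F (mob a b c e τ) / (c * τ + e) ^ w)) ∧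
      ∀ (O : Subring ℂ) (M : Submodule O ℂ), (M' : ℂ)⁻¹ ∈ O → ee (1 / M') ∈ O → ∀ N₁,
        (∀ N ≤ bd (c₀ * M') w N₁, A N ∈ M) → ∀ N ≤ N₁, B N ∈ M := by
  obtain ⟨B, B', k, hs, -, hk, hB', hBB⟩ := QC.expand hA h1 hw hF hL hd hc0 hcop
  refine ⟨B, hs, fun O M hM he N₁ hAM => ?_⟩
  have hsm : ∀ z x : ℂ, z ∈ O → x ∈ M → z * x ∈ M := fun z x hz hx => M.smul_mem ⟨z, hz⟩ hx
  have key : ∀ N ≤ N₁, B' N ∈ M := by
    intro N
    induction N using Nat.strong_induction_on with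
    | _ N ih =>
      intro hN
      obtain ⟨N₀, j, g, H, hbd, hcore⟩ := core hA hB N h0 h1 hc hw
      have := bd_mono (c₀ * M') w hN
      rw [hcore F A hF hL a (b - a * k) c (e - c * k) (by linear_combination hd) hc0 hcop hk B' hB']
      refine M.add_mem ?_ (M.sum_mem fun m hm => hsm _ _ (intCast_mem O _)
        (ih m (Finset.mem_range.mp hm) ((Finset.mem_range.mp hm).le.trans hN)))
      rw [div_eq_mul_inv, mul_comm, ← inv_pow]
      exact hsm _ _ (O.pow_mem hM j) (M.sum_mem fun m hm => hsm _ _ (intCast_mem O _)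
        (hAM m (by have := Finset.mem_range.mp hm; omega)))
  intro N hN
  rw [hBB N]
  exact hsm _ _ (O.pow_mem he _) (key N hN)

/-- Integral with a unit coefficient of index at most `N`. -/
def Pr (O : ValuationSubring ℂ) (N : ℕ) (B : ℕ → ℂ) : Prop :=
  (∀ m, O.valuation (B m) ≤ 1) ∧ ∃ m ≤ N, O.valuation (B m) = 1

lemma prim {O : ValuationSubring ℂ} {A B : ℕ → ℂ} {N N' : ℕ} (hA : Pr O N A) (hB : Pr O N' B) :
    Pr O (N + N') fun N => ∑ m ∈ Finset.range (N + 1), A m * B (N - m) := by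
  classical
  obtain ⟨a1, x, hx, a2⟩ := hA
  obtain ⟨b1, y, hy, b2⟩ := hB
  have a3 : ∃ m, O.valuation (A m) = 1 := ⟨x, a2⟩
  have b3 : ∃ m, O.valuation (B m) = 1 := ⟨y, b2⟩
  refine ⟨fun N => Valuation.map_sum_le _ fun m _ => by
    rw [map_mul]; exact mul_le_one' (a1 _) (b1 _), Nat.find a3 + Nat.find b3,
    Nat.add_le_add ((Nat.find_min' a3 a2).trans hx) ((Nat.find_min' b3 b2).trans hy), ?_⟩
  beta_reduce
  rw [← Finset.add_sum_erase _ _ (a := Nat.find a3) (Finset.mem_range.mpr (by omega))]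
  have h1 : O.valuation (A (Nat.find a3) * B (Nat.find a3 + Nat.find b3 - Nat.find a3)) =
      1 := by rw [map_mul, Nat.add_sub_cancel_left, Nat.find_spec a3, Nat.find_spec b3, mul_one]
  rw [Valuation.map_add_eq_of_lt_left, h1]
  rw [h1]
  refine Valuation.map_sum_lt _ one_ne_zero fun m hm => ?_
  obtain ⟨h2, h3⟩ := Finset.mem_erase.mp hm
  rw [Finset.mem_range] at h3
  rw [map_mul]
  rcases lt_or_gt_of_ne h2 with h | h
  · exact mul_lt_one_of_lt_of_le ((a1 _).lt_of_ne (Nat.find_min a3 h)) (b1 _)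
  · rw [mul_comm]
    exact mul_lt_one_of_lt_of_le ((b1 _).lt_of_ne (Nat.find_min b3 (by omega))) (a1 _)

lemma prod_pr (hA : StQA) {O : ValuationSubring ℂ} {ι : Type} {F : ι → ℂ → ℂ} {A : ι → ℕ → ℂ}
    {N : ℕ} (h : ∀ i, QS (F i) (A i)) (h' : ∀ i, Pr O N (A i)) {s : Finset ι} (hs : s.Nonempty) :
    ∃ B, QS (fun τ => ∏ i ∈ s, F i τ ^ 8) B ∧ Pr O (8 * N * s.card) B := by
  have hm : ∀ {f g : ℂ → ℂ} {x y : ℕ}, (∃ B, QS f B ∧ Pr O x B) → (∃ B, QS g B ∧ Pr O y B) →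
      ∃ B, QS (fun τ => f τ * g τ) B ∧ Pr O (x + y) B :=
    fun ⟨_, a, b⟩ ⟨_, c, d⟩ => ⟨_, hA.mul a c, prim b d⟩
  have h8 : ∀ i, ∃ B, QS (fun τ => F i τ ^ 8) B ∧ Pr O (8 * N) B := fun i => by
    have h1 : ∃ B, QS (F i) B ∧ Pr O N B := ⟨_, h i, h' i⟩
    have h2 := hm h1 h1
    have h4 := hm h2 h2
    convert hm h4 h4 using 4 <;> ring_nf
  induction hs using Finset.Nonempty.cons_induction with
  | singleton i => simpa using h8 i
  | cons i s hi _ ih =>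
    simp only [Finset.prod_cons, Finset.card_cons]
    convert hm (h8 i) ih using 4
    ring

theorem qp (hA : StQA) (hB : StQB') (ι : Type) [Fintype ι] [Nonempty ι] (c₀ M' w N₁ : ℕ)
    (F H : ι → ℂ → ℂ) (A B : ι → ℕ → ℂ) (O : ValuationSubring ℂ) (hc : 0 < c₀) (hM : 1 < M')
    (hcop : c₀.Coprime M') (hw : Even w) (hv : O.valuation M' = 1) (hF : ∀ i, QS (F i) (A i))
    (hH : ∀ i, QS (H i) (B i))
    (hlaw : ∀ a b c e : ℤ, a * e - b * c = 1 → ((c₀ * M' : ℕ) : ℤ) ∣ c → c ≠ 0 → ∃ σ : ι ≃ ι, ∀ i,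
      ∀ τ : ℂ, 0 < τ.im → F i (mob a b c e τ) ^ 8 = (c * τ + e) ^ w * F (σ i) τ ^ 8)
    (hcusp : ∀ i, ∀ τ : ℂ, 0 < τ.im →
      F i (mob 1 0 c₀ 1 τ) ^ 8 = (c₀ * τ + 1) ^ w * H i (τ / M') ^ 8) (hB1 : ∀ i, Pr O N₁ (B i)) :
    ¬∀ i, ∀ N ≤ bd (c₀ * M') (w * Fintype.card ι) (8 * N₁ * Fintype.card ι),
      O.valuation (A i N) < 1 := by
  intro hlt
  obtain ⟨A', hA1, hA2⟩ := QP.prod_qs hA (P := fun A => ∀ N ≤ bd (c₀ * M') (w * Fintype.card ι)
    (8 * N₁ * Fintype.card ι), O.valuation (A N) < 1) (fun A B a b N hN =>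
      Valuation.map_sum_lt _ one_ne_zero fun m hm => by
        rw [map_mul]
        exact mul_lt_one_of_lt_of_le (a _ (by have := Finset.mem_range.mp hm; omega))
          (b _ (by omega)).le) hF hlt
  obtain ⟨B', hB3, -, N, hN1, hN⟩ := prod_pr hA hH hB1 Finset.univ_nonempty
  have hM0 : (M' : ℂ) ≠ 0 := Nat.cast_ne_zero.mpr (by omega)
  have hM1 : (0 : ℝ) < M' := Nat.cast_pos.mpr (by omega)
  obtain ⟨B'', h1, h2⟩ := q1 hA hB (w := w * Fintype.card ι) hc hM hcop (hw.mul_right _) hA1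
    (fun a b c e h1 h2 h3 τ hτ => by
      obtain ⟨σ, hσ⟩ := hlaw a b c e h1 h2 h3
      rw [Finset.prod_congr rfl fun i _ => hσ i τ hτ, Finset.prod_mul_distrib,
        Equiv.prod_comp σ fun i => F i τ ^ 8, Finset.prod_const, Finset.card_univ, pow_mul])
    (a := 1) (b := 0) (c := c₀) (e := 1) (by ring) dvd_rfl (Nat.isCoprime_iff_coprime.mpr hcop)
  have h3 : B'' = B' := hA.uniq M' hM1 fun τ hτ => ⟨_, h1 τ hτ, by
    have h4 := hB3.sum (τ / M') (by rw [Complex.div_natCast_im]; positivity)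
    have h5 : (c₀ : ℂ) * τ + 1 ≠ 0 := fun h => by
      have := congrArg Complex.im h
      simp [hc.ne', hτ.ne'] at this
    simp only [Int.cast_natCast, Int.cast_one, Complex.ofReal_natCast]
    rw [Finset.prod_congr rfl fun i _ => hcusp i τ hτ, Finset.prod_mul_distrib, Finset.prod_const,
      Finset.card_univ, ← pow_mul, mul_div_cancel_left₀ _ (pow_ne_zero _ h5)]
    simpa only [mul_div_assoc] using h4⟩
  have h6 : O.valuation (ee (1 / M')) = 1 := by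
    have h7 : ee (1 / M') ^ M' = 1 := by
      rw [← ee_nat_mul, mul_one_div_cancel hM0]; simpa using ee_int 1
    have := congrArg O.valuation h7
    rwa [map_pow, map_one, pow_eq_one_iff_left (by omega)] at this
  have := h2 O.toSubring (QP.mx O) ((O.valuation_le_one_iff _).mp (by rw [map_inv₀, hv, inv_one]))
    ((O.valuation_le_one_iff _).mp h6.le) _ hA2 N hN1
  rw [h3] at this
  exact (show O.valuation (B' N) < 1 from this).ne hN

end Pool.Agent.Lib.Mu14.Eff
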