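import Pool.Agent.Lib.Mu45.Coef
import Pool.Agent.Lib.Mu45.QP

set_option autoImplicit false

open Matrix Filter Topology
open scoped Real

namespace Pool.Agent.Lib.Mu14.Eff

open Move in
/-- Changing the polynomial at a prime `r`, with control of the size. -/
theorem move (hL1 : StLat1) (hB : StBlk) (hX : StOmX) (hM : StMod) (hW : StWC) (hF : StFac)
    (hm : StFmem) (hq : StQsW) (hS : StScl) (hA : StQA) (hQ : StQB') (hR : StRoot) (hU : StUnit)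
    (hT : StTy) {p n k l m : ℕ} {a : Fin (n + 2) → ℤ} {O : ValuationSubring ℂ}
    (hp : Par p (n + 2) k l) (hG : Good p k l a) (m0 : 0 < m) (mp : m.Coprime p)
    (hO : O.valuation p < 1) : ∃ C₀ : ℕ, ∀ (r : ℕ) (C : Set (Fin (n + 2) → ℤ)), r.Prime → r ≠ p →
      r ≠ l → r ≠ 2 → m.Coprime r → CongS (r ^ (1 + 1)) C →
      (∀ e : ℤ, ¬(r : ℤ) ∣ e → ∃ u : ℂ, O.valuation u = 1 ∧ ∀ α : ℤ, ¬(r : ℤ) ∣ α →
        O.valuation (zW k l (fun x L => stab ((r : ℚ) ^ 1 • x) L *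
          FM (WC {b | scl e b ∈ C}) ((α / r : ℚ) • x) L) (toQ a) - u) < 1) →
      ∃ b, Good p k l b ∧ Sim m a b ∧ (∃ e : ℤ, ¬(r : ℤ) ∣ e ∧ scl e b ∈ C) ∧
        Qm (comp (toQ b)) ≤ (C₀ * r ^ (20 * (n + 2) + 24) : ℕ) := by
  classical
  have hl := hp.hl
  obtain ⟨C₁, hC₁⟩ := iso hR hS hG.1
  obtain ⟨Q, hQa⟩ := exists_nat_ge (Qm (comp (toQ a)))
  obtain ⟨B, m', lm, hBm⟩ := Nat.exists_eq_pow_mul_and_not_dvd
    (mul_pos (pow_pos hl.pos 2) m0).ne' l hl.ne_one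
  obtain ⟨K, hK⟩ := hM.law (n + 1) k l B hp.kk hl hp.hs
  refine ⟨4 * (4 * (n + 2) + 4 * k * (n + 2) * (n + 2 - 1) + 8 * Q + 1) *
    (4 * (l ^ 2 * (m * (2 * (p + l + 1) + C₁))) ^ 2 * l ^ K) ^ 5,
    fun r C hr rp rl r2 mr hC hu => ?_⟩
  by_contra hne
  obtain ⟨s, hs, hsB, hsC, iso⟩ := hC₁ ((r : ℤ) ^ 1) (p + l + r) (by simpa using hr.ne_zero)
  have cop : ∀ {q q' : ℕ}, q.Prime → q'.Prime → q ≠ q' → q.Coprime q' := fun h h' =>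
    (Nat.coprime_primes h h').2
  obtain ⟨D₁, hD₁⟩ : ∃ D₁, D₁ = l ^ 2 * (m * s) := ⟨_, rfl⟩
  obtain ⟨D₂, hD₂⟩ : ∃ D₂, D₂ = r ^ (1 + 1) := ⟨_, rfl⟩
  have d1 : 0 < D₁ := hD₁ ▸ mul_pos (pow_pos hl.pos _) (mul_pos m0 hs.pos)
  have d2 : 1 < D₂ := hD₂ ▸ Nat.one_lt_pow two_ne_zero hr.one_lt
  have d3 : 0 < D₁ * D₂ := mul_pos d1 (by omega)
  have rD : r.Coprime D₁ := hD₁ ▸ ((cop hr hl rl).pow_right 2).mul_right
    (mr.symm.mul_right (cop hr hs (by omega)))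
  have pD : p.Coprime D₁ := hD₁ ▸ ((cop hp.hp hl hp.lp.symm).pow_right 2).mul_right
    (mp.symm.mul_right (cop hp.hp hs (by omega)))
  have pD2 : p.Coprime D₂ := hD₂ ▸ (cop hp.hp hr rp.symm).pow_right _
  have p2 := cop hp.hp Nat.prime_two hp.odd
  obtain ⟨D', hD'⟩ : ∃ D', D' = m' * (s * D₂) := ⟨_, rfl⟩
  have hBD : D₁ * D₂ = l ^ B * D' := by rw [hD₁, hD', ← mul_assoc (l ^ 2), hBm]; ring
  have lD : ¬l ∣ D' := (Nat.Prime.coprime_iff_not_dvd hl).1 (hD' ▸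
    ((Nat.Prime.coprime_iff_not_dvd hl).2 lm).mul_right ((cop hl hs (by omega)).mul_right
      (hD₂ ▸ (cop hl hr rl.symm).pow_right _)))
  obtain ⟨c, hc⟩ : ∃ c, c = 2 * D₁ ^ 2 * l ^ K := ⟨_, rfl⟩
  have c0 : 0 < c := hc ▸ mul_pos (mul_pos two_pos (pow_pos d1 2)) (pow_pos hl.pos K)
  have c0' : (c : ℤ) ≠ 0 := by exact_mod_cast c0.ne'
  have rc : r.Coprime c := hc ▸ ((cop hr Nat.prime_two r2).mul_right (rD.pow_right 2)).mul_right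
    ((cop hr hl rl).pow_right K)
  have pc : p.Coprime c := hc ▸ (p2.mul_right (pD.pow_right 2)).mul_right
    ((cop hp.hp hl hp.lp.symm).pow_right K)
  obtain ⟨α, β, hαβ⟩ : IsCoprime (c : ℤ) D₂ :=
    Nat.isCoprime_iff_coprime.2 (hD₂ ▸ rc.symm.pow_right _)
  have rD2 : (r : ℤ) ∣ D₂ := by rw [hD₂]; push_cast; exact dvd_pow_self _ two_ne_zero
  have nd : ∀ {e : ℤ}, IsCoprime e D₂ → ¬(r : ℤ) ∣ e := fun h h' =>
    (Nat.prime_iff_prime_int.1 hr).not_isUnit (h.isUnit_of_dvd' h' rD2)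
  have Dc : (D₁ : ℤ) ∣ c := ⟨2 * D₁ * l ^ K, by rw [hc]; push_cast; ring⟩
  have : NeZero D₂ := ⟨by omega⟩
  let ev : (ZMod D₂)ˣ → ℤ := fun i => ((i : ZMod D₂).val : ℕ)
  have hev : ∀ i, ¬(r : ℤ) ∣ ev i := fun i =>
    nd (Nat.isCoprime_iff_coprime.2 (ZMod.val_coe_unit_coprime i))
  have hC1 : CongS D₁ (C1 l (m * s) a) := hD₁ ▸ C1_cong hW l (m * s) a
  have hC2 : ∀ i, CongS D₂ {b | scl (ev i) b ∈ C} := fun i => hD₂ ▸ cong_scl hC _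
  let E : (ZMod D₂)ˣ → Set (Fin (n + 2) → ℤ) := fun i => C1 l (m * s) a ∩ {b | scl (ev i) b ∈ C}
  have hE : ∀ i, CongS (D₁ * D₂) (E i) := fun i =>
    cong_inter (cong_mono hC1 (dvd_mul_right _ _)) (cong_mono (hC2 i) (dvd_mul_left _ _))
  have hK' := fun i => hK D' (WC (E i)) lD (hBD ▸ hW.tfx d3 (hE i)) (hW.nil hl fun b hb => hb.1.1.1)
  have hEb : ∀ i a', zW k l (WC (E i)) a' ≠ 0 → ∃ b ∈ E i, a' = toQ b := fun i a' h => by
    obtain ⟨L, hL⟩ := (zW_ne h).2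
    exact ((hW.val _ a' L).resolve_right fun k => hL k.1).2.2
  choose A hA1 hA' using fun i => hq (n + 1) k l _ 1 (WC (E i)) hp.kk hl hp.hs (hW.tfx d3 (hE i))
    (hW.nil hl fun b hb => hb.1.1.1) one_pos fun a' h => by
      obtain ⟨b, -, rfl⟩ := hEb i a' h
      simpa using hW.qm b
  simp only [Nat.cast_one, mul_one, one_mul] at hA1 hA'
  obtain ⟨G, hG8, hG'⟩ := hW.gam _ d1 hC1 1 0 c 1 (by simp) c0'
    ⟨l ^ K, by rw [hc]; push_cast; rfl⟩ Even.zero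
  have G0 : G ≠ 0 := fun h => by
    rw [h, zero_pow (by norm_num)] at hG8
    exact pow_ne_zero _ (inv_ne_zero (Int.cast_ne_zero.2 c0')) hG8.symm
  let W : (ZMod D₂)ˣ → Mx (n + 2) → Lt (n + 2) → ℂ := fun i x L => G⁻¹ * wW 1 c 1 (WC (E i)) x L
  have hK1 := fun i => hK' i 1 0 c 1 (by simp) c0' ⟨2 * D₁ ^ 2, by rw [hc]; push_cast; ring⟩
  have hB' := fun i => (hu _ (hev i)).elim fun u h => coef hB hM hW hm hq hS hU hT (W := W i)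
    (ρ := α * (1 + β * D₂) / 2) hp hG.2.1 hr rp rl (hD₁ ▸ rD) (dvd_mul_left s m) (cong_scl hC _) hO
    iso h.1 h.2 (tfx_mul (hX.tfx 1 c 1 (hW.tfx d3 (hE i)) c0') _)
    (fun x L k => (hK1 i).1 x L (right_ne_zero_of_mul k))
    ((Nat.Prime.coprime_iff_not_dvd hp.hp).1 ((p2.mul_right pc).mul_right (pD.mul_right pD2)))
    (α := α) (nd ⟨c, β, by rw [← hαβ]; ring⟩) fun x L => by
      simp only [W, E]
      rw [hF _ _ _ _ _ 1 c 1 α β d1 (by omega) hC1 (hC2 i) c0'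
        ⟨D₁ ^ 2 * l ^ K, by rw [hc]; push_cast; ring⟩ Dc hαβ, ← hD₂]
      split_ifs with h
      · rw [hG', mul_smul]
        simp only [scl_one, Set.ofPred_mem_eq]
        rw [wc_scl hL1 hB (C1_scl hT a (hD₁ ▸ IsCoprime.of_isCoprime_of_dvd_right
          ⟨D₂, α, by rw [← hαβ]; ring⟩ Dc)) h, show ((1 : ℤ) : ℚ) * α * (1 + β * D₂) * Qm x / 2 =
            α * (1 + β * D₂) / 2 * Qm x by push_cast; ring]
        field_simp
      · rw [WC, if_neg fun k => h k.2.1]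
        simp
  rw [← hD₂] at hB'
  choose B' hB1 hB2 hB3 using hB'
  refine qp hA hQ (ZMod D₂)ˣ (2 * c) (D₂ ^ 2) (4 * (n + 2) + 4 * k * (n + 2) * (n + 2 - 1))
    (r ^ 2 * Q)     (fun i τ => FW k l (WC (E i)) (2 * τ)) _ A B' O (by omega) (Nat.one_lt_pow two_ne_zero d2)
    (hD₂ ▸ (((cop hr Nat.prime_two r2).mul_right rc).symm.pow_right _).pow_right _)
    ⟨2 * (n + 2) + 2 * k * (n + 2) * (n + 2 - 1), by ring⟩
    (hU.nat p _ O hp.hp hO ((Nat.Prime.coprime_iff_not_dvd hp.hp).1 (pD2.pow_right 2))) hA1 hB1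
    ?_ (fun i τ hτ => ?_) (fun i => ⟨hB2 i, ?_⟩) fun i N hN => ?_
  · rintro a' b _ e hd ⟨t, rfl⟩ hc0
    obtain ⟨c', hc'⟩ : ∃ c' : ℤ, c' = c * D₂ ^ 2 * t := ⟨_, rfl⟩
    rw [show ((2 * c * D₂ ^ 2 : ℕ) : ℤ) * t = 2 * c' by rw [hc']; push_cast; ring] at hd hc0 ⊢
    have h1 : a' * e - 2 * b * c' = 1 := by rw [← hd]; ring
    have h2 : c' ≠ 0 := right_ne_zero_of_mul hc0
    have h3 : IsCoprime e c' := ⟨a', -(2 * b), by rw [← h1]; ring⟩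
    have h4 : IsCoprime e D₂ := h3.of_isCoprime_of_dvd_right ⟨c * D₂ * t, by rw [hc']; ring⟩
    obtain ⟨v, hv⟩ := (ZMod.coe_int_isUnit_iff_isCoprime e D₂).2 h4.symm
    refine ⟨Equiv.mulRight v, fun i τ hτ => ?_⟩
    obtain ⟨G', h5, h6⟩ := hW.gam _ d3 (hE i) a' (2 * b) c' e h1 h2
      ⟨l ^ K * t, by rw [hc', hc]; push_cast; ring⟩ (even_two_mul b)
    refine pow8 hW (F := FW k l (WC (E i))) (H := FW k l (WC (E (i * v)))) h2 hτ h5 ?_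
    rw [(hK' i a' (2 * b) c' e h1 h2 ⟨2 * D₁ ^ 2 * D₂ ^ 2 * t, by rw [hc', hc]; push_cast; ring⟩).2
      _ (by simpa using hτ), h6, Base.FW_mul]
    congr 4
    ext b
    refine and_congr (C1_scl hT a (hD₁ ▸ h3.of_isCoprime_of_dvd_right
      (hc' ▸ (Dc.mul_right _).mul_right _)) b) ?_
    rw [Set.mem_ofPred_eq, Set.mem_ofPred_eq, scl_scl]
    refine scl_congr (hD₂ ▸ hC) ((ZMod.intCast_eq_intCast_iff _ _ D₂).1 ?_) b
    simp [ev, hv]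
  · have h1 : (2 * (D₂ ^ 2 : ℕ) * (τ / (D₂ ^ 2 : ℕ)) : ℂ) = 2 * τ := by
      have : ((D₂ ^ 2 : ℕ) : ℂ) ≠ 0 := by exact_mod_cast (by positivity)
      field_simp
    have h2 := pow8 hW (a := 1) (b := 0) (e := 1) (F := FW k l (WC (E i))) (H := FW k l (W i)) c0'
      hτ hG8 (by
        rw [mul_zero, (hK1 i).2 _ (by simpa using hτ), Base.FW_mul, mul_inv_cancel_left₀ G0])
    rw [h1]
    exact_mod_cast h2
  · obtain ⟨N, h1, h2⟩ := hB3 i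
    refine ⟨N, ?_, h2⟩
    rw [← Nat.cast_le (α := ℚ), ← h1]
    push_cast
    rw [pow_one]
    gcongr
  · obtain ⟨S, hS1, hS2⟩ := hA' i N
    rw [hS2]
    refine Valuation.map_sum_lt _ one_ne_zero fun a' ha' => ?_
    obtain ⟨h1, h2⟩ := (hS1 a').1 ha'
    obtain ⟨b, hb, rfl⟩ := hEb i a' h1
    rw [(hU.wc k l _ _).1 b hb rfl, ← (hU.wc k l {b | EisZ l b} _).1 b hb.1.1 rfl]
    refine hU.lt p O _ hp.hp hO (by_contra fun h' => hne ⟨b, ⟨(zW_ne h1).1, hb.1.1, h'⟩,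
      sim_mono hb.1.2 (dvd_mul_right _ _), ⟨_, hev i, hb.2⟩, ?_⟩)
    rw [h2, Nat.cast_le]
    refine hN.trans ?_
    have k1 : Fintype.card (ZMod D₂)ˣ ≤ r ^ 2 := by
      rw [ZMod.card_units_eq_totient, hD₂]
      exact Nat.totient_le _
    have k2 : s ≤ (2 * (p + l + 1) + C₁) * r ^ (2 * (n + 2)) := by
      have h3 : r ≤ r ^ (2 * (n + 2)) := Nat.le_self_pow (by omega) _
      have h4 : s ≤ 2 * (p + l + r) + C₁ * r ^ (2 * (n + 2)) := by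
        rw [pow_one] at hsC
        exact_mod_cast hsC
      nlinarith [Nat.mul_le_mul_left (p + l) (hr.one_le.trans h3)]
    have k3 : r ^ 2 ≤ r ^ 4 := Nat.pow_le_pow_right hr.pos (by norm_num)
    have k4 : 1 ≤ r ^ 4 := Nat.one_le_pow _ _ hr.pos
    generalize 4 * (n + 2) + 4 * k * (n + 2) * (n + 2 - 1) = w
    generalize Fintype.card (ZMod D₂)ˣ = y at k1
    generalize 2 * (p + l + 1) + C₁ = C₂ at k2
    have k5 : 8 * (r ^ 2 * Q) * y + w * y + 1 ≤ (w + 8 * Q + 1) * r ^ 4 := by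
      have := Nat.mul_le_mul_left (8 * (r ^ 2 * Q)) k1
      have := Nat.mul_le_mul_left w (k1.trans k3)
      nlinarith
    calc bd (2 * c * D₂ ^ 2) (w * y) (8 * (r ^ 2 * Q) * y)
        = 4 * (8 * (r ^ 2 * Q) * y + w * y + 1) *
          (2 * (2 * (l ^ 2 * (m * s)) ^ 2 * l ^ K) * (r ^ (1 + 1)) ^ 2) ^ 5 := by
          rw [bd, hc, hD₁, hD₂]
      _ ≤ 4 * ((w + 8 * Q + 1) * r ^ 4) * (2 * (2 * (l ^ 2 * (m * (C₂ * r ^ (2 * (n + 2))))) ^ 2 *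
          l ^ K) * (r ^ (1 + 1)) ^ 2) ^ 5 := by gcongr
      _ = _ := by ring

end Pool.Agent.Lib.Mu14.Eff
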