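import Pool.Agent.Lib.Mu14.Final2
import Pool.Agent.Lib.Mu45.Move
import Pool.Agent.Lib.Mu45.Frob
import Pool.Agent.Lib.Mu45.Disc

/-! Many totally real fields with trivial Iwasawa module. -/

set_option autoImplicit false

open Matrix NumberField Polynomial Filter
open scoped IntermediateField

namespace Pool.Agent.Lib.Mu14.Eff

open Step

/-- From an inert prime to an Eisenstein polynomial of controlled size. -/
lemma step {p n k l m : ℕ} {a : Fin (n + 2) → ℤ} (hP : Par p (n + 2) k l) (hG : Good p k l a)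
    (hm : 0 < m) (hmp : m.Coprime p) : ∃ C : ℕ, ∀ r : ℕ, r.Prime → p + l + m + 2 < r →
      r ≡ 1 [MOD p] → Irreducible ((pol a).map (Int.castRingHom (ZMod r))) →
      ∃ b, Good p k l b ∧ Sim m a b ∧ EisZ r b ∧
        Qm (comp (toQ b)) ≤ (C * r ^ (20 * (n + 2) + 24) : ℕ) := by
  have hU := unit0
  have hT := stTy
  obtain ⟨O, hO⟩ := hU.ex p hP.hp
  obtain ⟨C, hC⟩ := move stLat1 stBlk omx mod0 wc0 (stFac stInt1 int2 stLat1 lat2 stBlk wc0)
    (stFmem stInt1 int2 stLat1 lat2 stBlk wc0) (stQsW mod0) scl0 stQA (stQB (stQD stQA)) stRoot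
    unit0 stTy hP hG hm hmp hO
  refine ⟨C, fun r hr hrB hr1 hirr => ?_⟩
  have hrp : r ≠ p := by omega
  have hrl : r ≠ l := by omega
  have hmr : m.Coprime r := ((Nat.coprime_or_dvd_of_prime hr m).resolve_right fun h => by
    have := Nat.le_of_dvd hm h; omega).symm
  have hvr : O.valuation r = 1 :=
    hU.nat p r O hP.hp hO fun h => hrp ((Nat.prime_dvd_prime_iff_eq hP.hp hr).mp h).symm
  have hcg : Cg O r 1 := by
    refine ⟨by simp, ?_⟩
    obtain ⟨t, ht⟩ := (Nat.modEq_iff_dvd' hr.one_le).mp hr1.symm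
    have : (r : ℂ) - 1 = p * t := by
      have : r = 1 + p * t := by have := hr.one_le; omega
      rw [this]; push_cast; ring
    rw [this, map_mul]
    exact mul_lt_one_of_lt_of_le hO (val_nat t)
  obtain ⟨b, hb, hs, ⟨e, he, hbe⟩, hQ⟩ := hC r (CE r 1) hr hrp hrl (by omega) hmr
    (hT.congE r 1) fun e he => by
      obtain ⟨u, hu, hC⟩ := hT.ce (n := n + 1) e hr he
      refine ⟨_, ?_, fun α hα => by
        rw [hC, pow_one, loc1 (n + 1) k l r u α a hP.kk hP.hl hr hrl.symm hu hα hirr, sub_self]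
        simp⟩
      rw [map_mul, map_mul, hU.good p (n + 1) k l a O hP hO hG, val_add (hU.nat p _ O hP.hp hO
        fun h => hP.pn ((hP.hp.dvd_mul.mp h).elim id id)) (bracket (k := k) hcg).2]
      simp [hvr]
  obtain ⟨u, hu, hC⟩ := hT.ce (n := n + 1) e hr he
  exact ⟨b, hb, hs, hT.eis hr hu (hC.le hbe), hQ⟩

lemma root_le {n : ℕ} {a : V n} (h : Spl (toR a)) {z : ℂ} (hz : aeval z (pol a) = 0) :
    ‖z‖ ^ 2 ≤ (Qm (comp a) : ℚ) := by
  obtain ⟨r, -, hr⟩ := h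
  have h2 : (pol a).map (algebraMap ℚ ℂ) = ∏ i, (X - C (r i : ℂ)) := by
    have := congrArg (Polynomial.map (algebraMap ℝ ℂ)) hr
    rw [pol_map, Polynomial.map_prod] at this
    rw [pol_map]
    simpa [toR] using this
  rw [aeval_def, eval₂_eq_eval_map, h2, eval_prod, Finset.prod_eq_zero_iff] at hz
  obtain ⟨i, -, hi⟩ := hz
  obtain rfl : z = r i := by simpa [sub_eq_zero] using hi
  rw [stRoot.cast, (stRoot.real hr).1, Complex.norm_real, Real.norm_eq_abs, sq_abs]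
  exact Finset.single_le_sum (f := fun i => r i ^ 2) (fun _ _ => sq_nonneg _) (Finset.mem_univ i)

open Pool.Agent.Lib.MP_4e64b4_nt in
theorem many (p n : ℕ) (hp : p.Prime) (hodd : p ≠ 2) (hn : 3 ≤ n) (hpn : ¬p ∣ n) :
    ∀ᶠ X : ℕ in atTop, X ≤ {E : IntermediateField ℚ ℂ | IsTotallyReal E ∧ Subsingleton (XS E p) ∧
      (∃ θ : ℂ, ℚ⟮θ⟯ = E ∧ (minpoly ℚ θ).natDegree = n ∧
        Nonempty ((minpoly ℚ θ).Gal ≃* Equiv.Perm (Fin n))) ∧
      ∃ _ : NumberField E, |NumberField.discr E| ≤ X}.ncard ^ (11 * n ^ 3) := by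
  classical
  have hI := irr0
  have hT := stTy
  have hS := stStep loc1 (stLoc2 stInt1 int2 stLat1 lat2 stBlk wc0) move0 unit0 stTy stBlk irr0
  obtain ⟨m, rfl⟩ : ∃ m, n = m + 2 := ⟨n - 2, by omega⟩
  obtain ⟨k, l, hl, hP, -⟩ := hI.par p (m + 2) (m + 2) hp hodd hpn hn
  have hln : ¬l ∣ m + 2 := fun h => by have := Nat.le_of_dvd (by omega) h; omega
  obtain ⟨a₀, ha₀⟩ := base0 p (m + 1) k l hP
  obtain ⟨r, a₁, hr, hrp, ha₁, -, ht⟩ := hS p m k l 1 (m + 1) a₀ hP hln ha₀ one_pos (by simp)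
    (by omega) (by omega)
  obtain ⟨r', a, hr', hrp', ha, hs, ht'⟩ := hS p m k l r 2 a₁ hP hln ha₁ hr.pos
    ((Nat.coprime_primes hr hp).mpr hrp) le_rfl (by omega)
  replace ht := hT.sim hr hs ht
  obtain ⟨C, hC⟩ := step hP ha (mul_pos hr.pos hr'.pos) (((Nat.coprime_primes hr hp).mpr
    hrp).mul_left ((Nat.coprime_primes hr' hp).mpr hrp'))
  obtain ⟨hmon, hdeg⟩ := monic hI a
  obtain ⟨c, hc⟩ := many_inert (f := pol a) hmon
    (by rw [pol_toQ]; exact hI.irr hP.hl ha.2.1) (l := l) (m := p) hP.hl (by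
      rw [pol_map, hdeg, pol]
      simp [(ZMod.intCast_zmod_eq_zero_iff_dvd _ l).mpr (ha.2.1.1 _)])
    (by rw [show (pol a).coeff 0 = a 0 from pol_coeff a 0]; exact ha.2.1.2 0 rfl) (by rwa [hdeg])
    (fun h => hP.lp ((Nat.prime_dvd_prime_iff_eq hP.hl hP.hp).mp h)) (p + l + r * r' + 2)
  obtain ⟨T, hT1⟩ : ∃ T, T = (m + 2) * (m + 2 - 1) / 2 := ⟨_, rfl⟩
  have hT2 : T * 2 = (m + 2) * (m + 1) :=
    hT1 ▸ Nat.div_mul_cancel (Nat.even_mul_pred_self (m + 2)).two_dvd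
  have hT3 : (20 * (m + 2) + 24) * T < 11 * (m + 2) ^ 3 := by
    rw [show (20 * (m + 2) + 24) * T = (10 * (m + 2) + 12) * (T * 2) by ring, hT2]
    nlinarith [Nat.zero_le (m ^ 3), Nat.zero_le (m ^ 2)]
  refine count _ (fun X => ?_) (fun E : IntermediateField ℚ ℂ =>
    if _ : NumberField E then (NumberField.discr E).natAbs else 0) _ (C := (4 * C) ^ T)
    (mul_ne_zero (by omega) fun h => by simp [h] at hT2) hT3 hc ?_
  · refine ((finite_of_discr_bdd ℂ X).image Subtype.val).subset ?_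
    rintro E ⟨-, -, -, h1, h2⟩
    exact ⟨⟨E, inferInstance⟩, h2, rfl⟩
  rintro q Y ⟨hq, h1, h2, h3⟩ hY
  obtain ⟨b, hb, hs, hE, hQ⟩ := hC q hq h1 h2 h3
  obtain ⟨g, S, hg, hd, e⟩ := hT.sim hr (Move.sim_mono hs (dvd_mul_right _ _)) ht
  obtain ⟨g', S', hg', hd', e'⟩ := hT.sim hr' (Move.sim_mono hs (dvd_mul_left _ _)) ht'
  have hirr := hI.irr hP.hl hb.2.1
  obtain ⟨hm, hdg⟩ := hI.monic (toQ b)
  obtain ⟨hmz, hdz⟩ := monic hI b
  obtain ⟨θ, hθ⟩ := IsAlgClosed.exists_aeval_eq_zero ℂ (pol (toQ b))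
    (degree_pos_of_irreducible hirr).ne'
  have hmin : minpoly ℚ θ = pol (toQ b) := (minpoly.eq_of_irreducible_of_monic hirr hθ hm).symm
  have hint : IsIntegral ℚ θ := ⟨_, hm, hθ⟩
  have := IntermediateField.adjoin.finiteDimensional hint
  have hN : NumberField ℚ⟮θ⟯ := NumberField.of_module_finite ℚ _
  have hrk : Module.finrank ℚ ℚ⟮θ⟯ = m + 2 := by
    rw [IntermediateField.adjoin.finrank hint, hmin, hdg]
  have hgen := link0 p (m + 1) k l b hP hb ℚ⟮θ⟯ (IntermediateField.AdjoinSimple.gen ℚ θ) hrk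
    ((IntermediateField.minpoly_gen ℚ θ).trans hmin)
  have := Fact.mk hr
  have := Fact.mk hr'
  have hgal := gal_Sn_frob hmz (by rwa [pol_toQ]) hg' hg hd' (by rw [hd, hdz]) (by omega) e' e
  rw [pol_toQ, hdz, ← hmin] at hgal
  have hx : aeval (IntermediateField.AdjoinSimple.gen ℚ θ) (pol (toQ b)) = 0 :=
    hmin ▸ IntermediateField.aeval_gen_minpoly ℚ θ
  obtain ⟨f, hf, hf0⟩ := IRR.exists_shape hE
  obtain ⟨y, hy1, hy⟩ := IRR.exists_int hf hx
  have h4 := discr_le (IntermediateField.adjoin.powerBasis hint)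
    (by rw [IntermediateField.adjoin.powerBasis_gen, ← hy1]; exact y.2) fun σ =>
      (root_le hb.1 (by rw [IntermediateField.adjoin.powerBasis_gen, aeval_algHom_apply, hx,
        map_zero])).trans (Rat.cast_le.2 hQ)
  have h5 : (NumberField.discr ℚ⟮θ⟯).natAbs ≤ Y := by
    rw [IntermediateField.adjoin.powerBasis_dim, hmin, hdg, ← hT1] at h4
    refine le_trans ?_ hY
    rw [pow_mul, ← mul_pow, mul_assoc]
    exact_mod_cast h4
  refine ⟨hq, ℚ⟮θ⟯, ⟨hI.real hb.1 hmin, xs_of_gen hp hodd hgen, ⟨θ, rfl, by rw [hmin, hdg], hgal⟩,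
    hN, by rw [Int.abs_eq_natAbs]; exact_mod_cast h5⟩, ?_⟩
  rw [dif_pos hN]
  exact ⟨dvd_discr hq hf0 (by omega) hy, Int.natAbs_ne_zero.2 (discr_ne_zero _), h5⟩

end Pool.Agent.Lib.Mu14.Eff
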